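import Pool.Agent.KPH.Stmts

/-!
# Vertices on `k` parallel hyperplanes: the types of facets
-/

set_option autoImplicit false

namespace KPH

open TPH

namespace MClass

/-- The combinatorial part: a finitely supported weight with values `≤ 2` of total mass at least five. -/
theorem comb (z : ℝ → ℕ) (T : Finset ℝ) (hT : ∀ t, 0 < z t → t ∈ T) (h5 : 5 ≤ ∑ t ∈ T, z t) :
    (∃ t ∈ T, 3 ≤ z t) ∨
    (∃ t₁ ∈ T, ∃ t₂ ∈ T, ∃ t₃ ∈ T, Btw t₁ t₂ t₃ ∧ z t₂ = 2 ∧ 0 < z t₁ ∧ 0 < z t₃) ∨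
    (∃ t₁ ∈ T, ∃ t₃ ∈ T, t₁ < t₃ ∧ z t₁ = 2 ∧ z t₃ = 2 ∧
      (∀ t, 0 < z t → t = t₁ ∨ t = t₃ ∨ (t₁ < t ∧ t < t₃ ∧ z t = 1))) ∨
    (∃ tA ∈ T, ∃ tc ∈ T, ∃ tD ∈ T, ∃ tB ∈ T, Btw tA tc tD ∧ Btw tA tc tB ∧ tD ≠ tB ∧
      z tA = 2 ∧ z tc = 1 ∧ z tD = 1 ∧ z tB = 1) ∨
    (∃ t₁ ∈ T, ∃ t₂ ∈ T, ∃ tc ∈ T, ∃ t₄ ∈ T, ∃ t₅ ∈ T, Btw t₁ tc t₄ ∧ Btw t₁ tc t₅ ∧ Btw t₂ tc t₄ ∧
      Btw t₂ tc t₅ ∧ t₁ ≠ t₂ ∧ t₄ ≠ t₅ ∧
      z t₁ = 1 ∧ z t₂ = 1 ∧ z tc = 1 ∧ z t₄ = 1 ∧ z t₅ = 1) := by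
  classical
  by_cases h3 : ∃ t ∈ T, 3 ≤ z t
  · exact Or.inl h3
  refine Or.inr ?_
  push Not at h3
  have hle : ∀ t, z t ≤ 2 := by
    intro t
    by_cases h0 : 0 < z t
    · have := h3 t (hT t h0)
      omega
    · omega
  set τ : Finset ℝ := T.filter (fun t => 0 < z t) with hτ
  have memτ : ∀ t, t ∈ τ ↔ 0 < z t := by
    intro t
    simp only [hτ, Finset.mem_filter]
    exact ⟨fun h => h.2, fun h => ⟨hT t h, h⟩⟩
  have hτT : ∀ t, t ∈ τ → t ∈ T := fun t ht => hT t ((memτ t).1 ht)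
  have hsum : 5 ≤ ∑ t ∈ τ, z t := by
    have h : ∑ t ∈ τ, z t = ∑ t ∈ T, z t := by
      rw [hτ]
      refine Finset.sum_filter_of_ne ?_
      intro t _ ht
      omega
    rw [h]
    exact h5
  have hcard3 : 3 ≤ τ.card := by
    have h : ∑ t ∈ τ, z t ≤ τ.card * 2 := by
      refine Finset.sum_le_card_nsmul τ z 2 (fun t _ => hle t)
    omega
  have hne : τ.Nonempty := Finset.card_pos.1 (by omega)
  -- minimum and maximum
  obtain ⟨m, hm⟩ : ∃ m, m = τ.min' hne := ⟨_, rfl⟩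
  obtain ⟨M, hM⟩ : ∃ M, M = τ.max' hne := ⟨_, rfl⟩
  have hmτ : m ∈ τ := by rw [hm]; exact Finset.min'_mem _ _
  have hMτ : M ∈ τ := by rw [hM]; exact Finset.max'_mem _ _
  have hmin : ∀ t ∈ τ, m ≤ t := by
    intro t ht
    rw [hm]
    exact Finset.min'_le _ _ ht
  have hmax : ∀ t ∈ τ, t ≤ M := by
    intro t ht
    rw [hM]
    exact Finset.le_max' _ _ ht
  by_cases hb : ∃ t ∈ τ, t ≠ m ∧ t ≠ M ∧ z t = 2
  · obtain ⟨t, ht, htm, htM, h2⟩ := hb
    refine Or.inl ⟨m, hτT m hmτ, t, hτT t ht, M, hτT M hMτ, ?_, h2, (memτ m).1 hmτ, (memτ M).1 hMτ⟩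
    exact Or.inl ⟨lt_of_le_of_ne (hmin t ht) (Ne.symm htm), lt_of_le_of_ne (hmax t ht) htM⟩
  refine Or.inr ?_
  push Not at hb
  have hmid : ∀ t ∈ τ, t ≠ m → t ≠ M → z t = 1 := by
    intro t ht htm htM
    have h1 := (memτ t).1 ht
    have h2 := hle t
    have h4 := hb t ht htm htM
    omega
  -- a strictly increasing enumeration
  have hmemE : ∀ i, τ.orderEmbOfFin rfl i ∈ τ := fun i => Finset.orderEmbOfFin_mem τ rfl i
  have hlt : ∀ i j : Fin τ.card, i < j → τ.orderEmbOfFin rfl i < τ.orderEmbOfFin rfl j :=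
    fun i j hij => (τ.orderEmbOfFin rfl).strictMono hij
  have hmM : m < M := by
    have h01 := hlt ⟨0, by omega⟩ ⟨1, by omega⟩ (by simp)
    exact lt_of_le_of_lt (hmin _ (hmemE _)) (lt_of_lt_of_le h01 (hmax _ (hmemE _)))
  have hz1 : ∀ t ∈ τ, z t = 1 ∨ z t = 2 := by
    intro t ht
    have h1 := (memτ t).1 ht
    have h2 := hle t
    omega
  rcases hz1 m hmτ with hzm | hzm <;> rcases hz1 M hMτ with hzM | hzM
  · -- all equal to one
    have hall : ∀ t ∈ τ, z t = 1 := by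
      intro t ht
      by_cases h1 : t = m
      · rw [h1]; exact hzm
      by_cases h2 : t = M
      · rw [h2]; exact hzM
      exact hmid t ht h1 h2
    have hcard : 5 ≤ τ.card := by
      have h : ∑ t ∈ τ, z t = τ.card := by
        rw [Finset.sum_congr rfl hall]
        simp
      omega
    refine Or.inr (Or.inr ?_)
    have h01 := hlt ⟨0, by omega⟩ ⟨1, by omega⟩ (by simp)
    have h12 := hlt ⟨1, by omega⟩ ⟨2, by omega⟩ (by simp)
    have h23 := hlt ⟨2, by omega⟩ ⟨3, by omega⟩ (by simp)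
    have h34 := hlt ⟨3, by omega⟩ ⟨4, by omega⟩ (by simp)
    refine ⟨_, hτT _ (hmemE ⟨0, by omega⟩), _, hτT _ (hmemE ⟨1, by omega⟩),
      _, hτT _ (hmemE ⟨2, by omega⟩), _, hτT _ (hmemE ⟨3, by omega⟩),
      _, hτT _ (hmemE ⟨4, by omega⟩), ?_, ?_, ?_, ?_, h01.ne, h34.ne,
      hall _ (hmemE _), hall _ (hmemE _), hall _ (hmemE _), hall _ (hmemE _), hall _ (hmemE _)⟩
    · exact Or.inl ⟨h01.trans h12, h23⟩
    · exact Or.inl ⟨h01.trans h12, h23.trans h34⟩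
    · exact Or.inl ⟨h12, h23⟩
    · exact Or.inl ⟨h12, h23.trans h34⟩
  · -- two at the maximum
    have hcard : 4 ≤ τ.card := by
      have h : ∑ t ∈ τ, z t ≤ ∑ t ∈ τ, (1 + if t = M then 1 else 0) := by
        refine Finset.sum_le_sum ?_
        intro t ht
        by_cases h2 : t = M
        · rw [if_pos h2, h2]
          omega
        · rw [if_neg h2]
          by_cases h1 : t = m
          · rw [h1]; omega
          · have := hmid t ht h1 h2
            omega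
      rw [Finset.sum_add_distrib, Finset.sum_ite_eq' τ M (fun _ => 1)] at h
      simp only [Finset.sum_const, smul_eq_mul, mul_one, hMτ, if_true] at h
      omega
    refine Or.inr (Or.inl ?_)
    have h01 := hlt ⟨τ.card - 4, by omega⟩ ⟨τ.card - 3, by omega⟩ (by simp [Fin.lt_def]; omega)
    have h12 := hlt ⟨τ.card - 3, by omega⟩ ⟨τ.card - 2, by omega⟩ (by simp [Fin.lt_def]; omega)
    have h23 := hlt ⟨τ.card - 2, by omega⟩ ⟨τ.card - 1, by omega⟩ (by simp [Fin.lt_def]; omega)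
    have hs : ∀ t ∈ τ, t < M → z t = 1 := by
      intro t ht htM
      by_cases h1 : t = m
      · rw [h1]; exact hzm
      · exact hmid t ht h1 htM.ne
    have hlast := hmax _ (hmemE ⟨τ.card - 1, by omega⟩)
    refine ⟨M, hτT M hMτ, _, hτT _ (hmemE ⟨τ.card - 2, by omega⟩),
      _, hτT _ (hmemE ⟨τ.card - 3, by omega⟩), _, hτT _ (hmemE ⟨τ.card - 4, by omega⟩), ?_, ?_,
      h01.ne', hzM, hs _ (hmemE _) (lt_of_lt_of_le h23 hlast),
      hs _ (hmemE _) (lt_of_lt_of_le (h12.trans h23) hlast),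
      hs _ (hmemE _) (lt_of_lt_of_le (h01.trans (h12.trans h23)) hlast)⟩
    · exact Or.inr ⟨h12, lt_of_lt_of_le h23 hlast⟩
    · exact Or.inr ⟨h01.trans h12, lt_of_lt_of_le h23 hlast⟩
  · -- two at the minimum
    have hcard : 4 ≤ τ.card := by
      have h : ∑ t ∈ τ, z t ≤ ∑ t ∈ τ, (1 + if t = m then 1 else 0) := by
        refine Finset.sum_le_sum ?_
        intro t ht
        by_cases h2 : t = m
        · rw [if_pos h2, h2]
          omega
        · rw [if_neg h2]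
          by_cases h1 : t = M
          · rw [h1]; omega
          · have := hmid t ht h2 h1
            omega
      rw [Finset.sum_add_distrib, Finset.sum_ite_eq' τ m (fun _ => 1)] at h
      simp only [Finset.sum_const, smul_eq_mul, mul_one, hmτ, if_true] at h
      omega
    refine Or.inr (Or.inl ?_)
    have h01 := hlt ⟨0, by omega⟩ ⟨1, by omega⟩ (by simp)
    have h12 := hlt ⟨1, by omega⟩ ⟨2, by omega⟩ (by simp)
    have h23 := hlt ⟨2, by omega⟩ ⟨3, by omega⟩ (by simp)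
    have hs : ∀ t ∈ τ, m < t → z t = 1 := by
      intro t ht htm
      by_cases h1 : t = M
      · rw [h1]; exact hzM
      · exact hmid t ht htm.ne' h1
    have hfirst := hmin _ (hmemE ⟨0, by omega⟩)
    refine ⟨m, hτT m hmτ, _, hτT _ (hmemE ⟨1, by omega⟩),
      _, hτT _ (hmemE ⟨2, by omega⟩), _, hτT _ (hmemE ⟨3, by omega⟩), ?_, ?_,
      h23.ne, hzm, hs _ (hmemE _) (lt_of_le_of_lt hfirst h01),
      hs _ (hmemE _) (lt_of_le_of_lt hfirst (h01.trans h12)),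
      hs _ (hmemE _) (lt_of_le_of_lt hfirst (h01.trans (h12.trans h23)))⟩
    · exact Or.inl ⟨lt_of_le_of_lt hfirst h01, h12⟩
    · exact Or.inl ⟨lt_of_le_of_lt hfirst h01, h12.trans h23⟩
  · -- two at both ends
    refine Or.inl ⟨m, hτT m hmτ, M, hτT M hMτ, hmM, hzm, hzM, ?_⟩
    intro t ht
    have htτ := (memτ t).2 ht
    by_cases h1 : t = m
    · exact Or.inl h1
    by_cases h2 : t = M
    · exact Or.inr (Or.inl h2)
    exact Or.inr (Or.inr ⟨lt_of_le_of_ne (hmin t htτ) (Ne.symm h1),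
      lt_of_le_of_ne (hmax t htτ) h2, hmid t htτ h1 h2⟩)

end MClass

theorem t_Class : StmtClass := by
  intro ι V G u s q hD T hV g hg
  classical
  have hT : ∀ t, 0 < (Zr V (u g) (s g) (q g) t).card → t ∈ T := by
    intro t ht
    obtain ⟨v, hv⟩ := Finset.card_pos.1 ht
    obtain ⟨h1, h2, _⟩ := Tr.mem_zer.1 hv
    rw [← h2]
    exact hV v h1
  have h5 : 5 ≤ ∑ t ∈ T, (Zr V (u g) (s g) (q g) t).card := by
    obtain ⟨Z, hZ5, hZ⟩ := hD.five g hg
    have hsub : Z ⊆ T.biUnion (fun t => Zr V (u g) (s g) (q g) t) := by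
      intro v hv
      obtain ⟨h1, h2⟩ := hZ v hv
      refine Finset.mem_biUnion.2 ⟨v.2, hV v h1, ?_⟩
      exact Tr.mem_zer.2 ⟨h1, rfl, h2⟩
    exact hZ5.trans ((Finset.card_le_card hsub).trans Finset.card_biUnion_le)
  have h := MClass.comb (fun t => (Zr V (u g) (s g) (q g) t).card) T hT h5
  simpa only [Finset.card_pos] using h

end KPH
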