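import Pool.Agent.KPH.Stmts

/-!
# Two facets with positively proportional `u` which touch the same two layers are equal
-/

set_option autoImplicit false

namespace KPH

open TPH

namespace MDet

/-- The two inequalities in one layer. -/
theorem layer_eq {ι : Type} {V : Finset (E × ℝ)} {G : Finset ι} {u : ι → E} {s q : ι → ℝ}
    (D : Tr.Data V G u s q) {g g' : ι} (hg : g ∈ G) (hg' : g' ∈ G) {t κ : ℝ} (hκ : 0 < κ)
    (hu : u g' = κ • u g) (h1 : (Zr V (u g) (s g) (q g) t).Nonempty)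
    (h2 : (Zr V (u g') (s g') (q g') t).Nonempty) :
    (s g' - κ * s g) * t = q g' - κ * q g := by
  obtain ⟨x, hx⟩ := h1
  obtain ⟨y, hy⟩ := h2
  obtain ⟨hxV, hxt, hxv⟩ := Tr.mem_zer.1 hx
  obtain ⟨hyV, hyt, hyv⟩ := Tr.mem_zer.1 hy
  have hx' := D.nn g' hg' x hxV
  have hy' := D.nn g hg y hyV
  rw [Tr.val, hxt] at hxv
  rw [Tr.val, hxt, hu, ip_smul_right] at hx'
  rw [Tr.val, hyt, hu, ip_smul_right] at hyv
  rw [Tr.val, hyt] at hy'
  have h3 : κ * (ip y.1 (u g) + s g * t) ≤ κ * q g := mul_le_mul_of_nonneg_left hy' hκ.le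
  have h4 : κ * (ip x.1 (u g) + s g * t) = κ * q g := by rw [hxv]
  nlinarith

end MDet

/-- **StmtDet.** -/
theorem t_Det : StmtDet := by
  intro ι V G u s q D g hg g' hg' t t' κ htt hκ hu h1 h1' h2 h2'
  have e1 := MDet.layer_eq D hg hg' hκ hu h1 h2
  have e2 := MDet.layer_eq D hg hg' hκ hu h1' h2'
  have e3 : (s g' - κ * s g) * (t - t') = 0 := by
    rw [mul_sub, e1, e2, sub_self]
  have e4 : s g' - κ * s g = 0 := by
    rcases mul_eq_zero.1 e3 with h | h
    · exact h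
    · exact absurd (sub_eq_zero.1 h) htt
  have e5 : q g' - κ * q g = 0 := by rw [← e1, e4, zero_mul]
  refine (D.inj g hg g' hg' (fun v hv hval => ?_)).symm
  rw [Tr.val] at hval
  rw [Tr.val, hu, ip_smul_right, sub_eq_zero.1 e4, sub_eq_zero.1 e5, ← hval]
  ring

end KPH
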