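import Pool.Agent.KPH.TotalD
import Pool.Agent.TPH.TrB

/-!
# Vertices on `k` parallel hyperplanes: the bound for polytopes
-/

set_option autoImplicit false

namespace KPH

open TPH

/-- **The bound for polytopes.** -/
theorem bound (hTot : StmtTotalD) : ∃ K : ℝ, 0 < K ∧
    ∀ {W : Type} [NormedAddCommGroup W] [NormedSpace ℝ W] [FiniteDimensional ℝ W],
    Module.finrank ℝ W = 4 → ∀ S P : Set W, S.Finite → affineSpan ℝ S = ⊤ → P = convexHull ℝ S →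
    ∀ l : W →ₗ[ℝ] ℝ, l ≠ 0 → ∀ T : Finset ℝ, (∀ v ∈ P.extremePoints ℝ, l v ∈ T) →
    ∀ n : ℕ, (P.extremePoints ℝ).encard = n →
    ∃ N : ℕ, {F : Set W | IsExposed ℝ P F ∧ Module.finrank ℝ (vectorSpan ℝ F) = 3 ∧
        (F.extremePoints ℝ).encard ≠ 4}.encard = N ∧
      (N : ℝ) ≤ K * (T.card : ℝ) ^ 4 * (n : ℝ) ^ (3 / 2 : ℝ) := by
  obtain ⟨K, hK0, hK⟩ := hTot
  refine ⟨K, hK0, ?_⟩
  intro W _ _ _ hdim S P hS hspan hP l hl T hT n hn
  obtain ⟨V, G, u, s, q, D, hV, hG, hlV⟩ := Tr.exists_facet_data hdim hS hspan hP l hl n hn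
  refine ⟨G.card, hG, ?_⟩
  have h := hK (Set W) V G u s q D T (fun v hv => by
    obtain ⟨x, hx, he⟩ := hlV v hv
    rw [← he]
    exact hT x hx)
  rw [hV] at h
  exact h

end KPH
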