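import Pool.Agent.KPH.Stmts

/-!
# Facets with two, one, two vertices in three layers which determine them are counted by flats
-/

set_option autoImplicit false

namespace KPH

open TPH

namespace MFlatD

open TPH.Tr

variable {V : Finset (E × ℝ)} {ι : Type*} {G : Finset ι} {u : ι → E} {s q : ι → ℝ}

/-- The flat of a facet with two, one, two vertices in the layers. -/
theorem isFlat' (D : Data V G u s q) {t₁ t₂ t₃ α β : ℝ} (hα : 0 < α) (hβ : 0 < β)
    (hαβ : α + β = 1) (ht : α * t₁ + β * t₃ = t₂) (h13 : t₁ ≠ t₃) {g : ι} (hg : g ∈ G)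
    (hN : NDg V (u g) (s g) (q g) t₁ t₂ t₃)
    (h1 : (zer V t₁ (u g) (s g) (q g)).card = 2) (h2 : (zer V t₂ (u g) (s g) (q g)).card = 1)
    (h3 : (zer V t₃ (u g) (s g) (q g)).card = 2) :
    ∃ c, Mx (img V t₂ 1) (u g) = {c} ∧
      IsFlat (img V t₁ (2 * α)) (img V t₃ (2 * β)) (img V t₂ 1)
        (Mx (img V t₁ (2 * α)) (u g), c, Mx (img V t₃ (2 * β)) (u g)) (u g) := by
  classical
  have hnn := D.nn g hg
  have k1 : 0 < 2 * α := by linarith
  have k3 : 0 < 2 * β := by linarith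
  have n1 : (zer V t₁ (u g) (s g) (q g)).Nonempty := by rw [← Finset.card_pos]; omega
  have n2 : (zer V t₂ (u g) (s g) (q g)).Nonempty := by rw [← Finset.card_pos]; omega
  have n3 : (zer V t₃ (u g) (s g) (q g)).Nonempty := by rw [← Finset.card_pos]; omega
  have hc2 := card_Mx one_pos hnn n2
  rw [h2] at hc2
  obtain ⟨c, hc⟩ := Finset.card_eq_one.1 hc2
  refine ⟨c, hc, ?_, ?_, rfl, hc, rfl, ?_, ?_⟩
  · show (Mx (img V t₁ (2 * α)) (u g)).card = 2
    rw [card_Mx k1 hnn n1, h1]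
  · show (Mx (img V t₃ (2 * β)) (u g)).card = 2
    rw [card_Mx k3 hnn n3, h3]
  · intro a ha b hb
    have e1 := ip_of_mem k1 hnn n1 ha
    have e3 := ip_of_mem k3 hnn n3 hb
    have e2 := ip_of_mem one_pos hnn n2 (by rw [hc]; simp : c ∈ Mx (img V t₂ 1) (u g))
    show ip a (u g) + ip b (u g) = 2 * ip c (u g)
    rw [e1, e2, e3, ← ht]
    have : β = 1 - α := by linarith
    rw [this]; ring
  · intro v hv1 hv3 hv2
    dsimp only at hv1 hv3 hv2
    obtain ⟨x, hx⟩ := n1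
    obtain ⟨y, hy⟩ := n3
    have hx' := mem_zer.1 hx
    have hy' := mem_zer.1 hy
    have hxM : (2 * α) • x.1 ∈ Mx (img V t₁ (2 * α)) (u g) :=
      (mem_Mx_img k1 hnn ⟨x, hx⟩ (mem_lay.2 ⟨hx'.1, hx'.2.1⟩)).2 hx'.2.2
    have hyM : (2 * β) • y.1 ∈ Mx (img V t₃ (2 * β)) (u g) :=
      (mem_Mx_img k3 hnn ⟨y, hy⟩ (mem_lay.2 ⟨hy'.1, hy'.2.1⟩)).2 hy'.2.2
    -- solve for the height coefficient
    set s' : ℝ := (ip x.1 v - ip y.1 v) / (t₃ - t₁) with hs'
    set q' : ℝ := ip x.1 v + s' * t₁ with hq'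
    have ht31 : t₃ - t₁ ≠ 0 := sub_ne_zero.2 h13.symm
    have hs1 : s' * (t₃ - t₁) = ip x.1 v - ip y.1 v := by rw [hs', div_mul_cancel₀ _ ht31]
    have hq3 : ip y.1 v + s' * t₃ = q' := by rw [hq']; linarith
    refine hN v s' q' ?_
    rintro w (hw | hw | hw)
    · obtain ⟨hw1, h, hw0⟩ := mem_zer.1 hw
      have hwM : (2 * α) • w.1 ∈ Mx (img V t₁ (2 * α)) (u g) :=
        (mem_Mx_img k1 hnn ⟨x, hx⟩ (mem_lay.2 ⟨hw1, h⟩)).2 hw0
      have e := hv1 _ hwM _ hxM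
      rw [ip_smul_left, ip_smul_left] at e
      have e' := mul_left_cancel₀ k1.ne' e
      rw [val, h, e']
    · obtain ⟨hw1, h, hw0⟩ := mem_zer.1 hw
      have hwM : (1 : ℝ) • w.1 ∈ Mx (img V t₂ 1) (u g) :=
        (mem_Mx_img one_pos hnn n2 (mem_lay.2 ⟨hw1, h⟩)).2 hw0
      rw [hc, Finset.mem_singleton, one_smul] at hwM
      have e := hv2 _ hxM _ hyM
      rw [ip_smul_left, ip_smul_left, ← hwM] at e
      rw [val, h, ← ht]
      have e1 : ip w.1 v = α * ip x.1 v + β * ip y.1 v := by linarith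
      rw [e1]
      have e2 : ip y.1 v = q' - s' * t₃ := by linarith
      have e3 : ip x.1 v = q' - s' * t₁ := by rw [hq']; ring
      rw [e2, e3]
      have : β = 1 - α := by linarith
      rw [this]; ring
    · obtain ⟨hw1, h, hw0⟩ := mem_zer.1 hw
      have hwM : (2 * β) • w.1 ∈ Mx (img V t₃ (2 * β)) (u g) :=
        (mem_Mx_img k3 hnn ⟨y, hy⟩ (mem_lay.2 ⟨hw1, h⟩)).2 hw0
      have e := hv3 _ hwM _ hyM
      rw [ip_smul_left, ip_smul_left] at e
      have e' := mul_left_cancel₀ k3.ne' e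
      rw [val, h, e']
      exact hq3

/-- A facet determined by its vertices in three layers is determined by the maximisers. -/
theorem inj' (D : Data V G u s q) {t₁ t₂ t₃ k₁ k₂ k₃ : ℝ} (h1 : 0 < k₁) (h2 : 0 < k₂)
    (h3 : 0 < k₃) (h13 : t₁ ≠ t₃) {g g' : ι} (hg : g ∈ G)
    (hg' : g' ∈ G) (hN : NDg V (u g) (s g) (q g) t₁ t₂ t₃)
    (n1 : (zer V t₁ (u g) (s g) (q g)).Nonempty)
    (n2 : (zer V t₂ (u g) (s g) (q g)).Nonempty) (n3 : (zer V t₃ (u g) (s g) (q g)).Nonempty)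
    (n1' : (zer V t₁ (u g') (s g') (q g')).Nonempty)
    (n2' : (zer V t₂ (u g') (s g') (q g')).Nonempty)
    (n3' : (zer V t₃ (u g') (s g') (q g')).Nonempty)
    (e1 : Mx (img V t₁ k₁) (u g) = Mx (img V t₁ k₁) (u g'))
    (e2 : Mx (img V t₂ k₂) (u g) = Mx (img V t₂ k₂) (u g'))
    (e3 : Mx (img V t₃ k₃) (u g) = Mx (img V t₃ k₃) (u g')) : g = g' := by
  have hnn := D.nn g hg
  have hnn' := D.nn g' hg'
  have a1 : ∀ x ∈ zer V t₁ (u g) (s g) (q g), val (u g') (s g') x = q g' := by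
    intro x hx
    obtain ⟨hx1, hx2, hx3⟩ := mem_zer.1 hx
    rw [← mem_Mx_img h1 hnn' n1' (mem_lay.2 ⟨hx1, hx2⟩), ← e1,
      mem_Mx_img h1 hnn n1 (mem_lay.2 ⟨hx1, hx2⟩)]
    exact hx3
  have a2 : ∀ x ∈ zer V t₂ (u g) (s g) (q g), val (u g') (s g') x = q g' := by
    intro x hx
    obtain ⟨hx1, hx2, hx3⟩ := mem_zer.1 hx
    rw [← mem_Mx_img h2 hnn' n2' (mem_lay.2 ⟨hx1, hx2⟩), ← e2,
      mem_Mx_img h2 hnn n2 (mem_lay.2 ⟨hx1, hx2⟩)]
    exact hx3
  have a3 : ∀ x ∈ zer V t₃ (u g) (s g) (q g), val (u g') (s g') x = q g' := by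
    intro x hx
    obtain ⟨hx1, hx2, hx3⟩ := mem_zer.1 hx
    rw [← mem_Mx_img h3 hnn' n3' (mem_lay.2 ⟨hx1, hx2⟩), ← e3,
      mem_Mx_img h3 hnn n3 (mem_lay.2 ⟨hx1, hx2⟩)]
    exact hx3
  obtain ⟨κ, hκ⟩ := hN (u g') (s g') (q g') (by
    rintro x (hx | hx | hx)
    · exact a1 x hx
    · exact a2 x hx
    · exact a3 x hx)
  obtain ⟨x, hx⟩ := n1
  obtain ⟨y, hy⟩ := n3
  have b1 := a1 x hx
  have b3 := a3 y hy
  obtain ⟨-, hx2, hx3⟩ := mem_zer.1 hx
  obtain ⟨-, hy2, hy3⟩ := mem_zer.1 hy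
  rw [val, hx2] at hx3
  rw [val, hy2] at hy3
  rw [val, hκ, ip_smul_right, hx2] at b1
  rw [val, hκ, ip_smul_right, hy2] at b3
  have c1 : (s g' - κ * s g) * t₁ = q g' - κ * q g := by
    rw [← hx3] at *
    linarith
  have c3 : (s g' - κ * s g) * t₃ = q g' - κ * q g := by
    have h : κ * ip y.1 (u g) = κ * (q g - s g * t₃) := by rw [← hy3]; ring
    rw [h] at b3
    linarith
  have c4 : (s g' - κ * s g) * (t₁ - t₃) = 0 := by rw [mul_sub, c1, c3, sub_self]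
  have c5 : s g' - κ * s g = 0 := by
    rcases mul_eq_zero.1 c4 with h | h
    · exact h
    · exact absurd (sub_eq_zero.1 h) h13
  have c6 : q g' - κ * q g = 0 := by rw [← c1, c5, zero_mul]
  refine D.inj g hg g' hg' (fun v _ h0 => ?_)
  have d1 : s g' = κ * s g := by linarith
  have d2 : q g' = κ * q g := by linarith
  rw [val, hκ, ip_smul_right, d1, d2, ← h0, val]
  ring

end MFlatD

open MFlatD TPH.Tr in
theorem t_FlatD : StmtFlatD := by
  classical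
  intro ι V G u s q D t₁ t₂ t₃ S hB hS h
  set α := wt t₁ t₂ t₃ with hα'
  set β := wt t₃ t₂ t₁ with hβ'
  have hα : 0 < α := hB.wt_pos
  have hβ : 0 < β := hB.symm.wt_pos
  have hαβ : α + β = 1 := hB.wt_add
  have ht : α * t₁ + β * t₃ = t₂ := hB.wt_eq
  have h13 : t₁ ≠ t₃ := hB.ne.2.2
  have k1 : 0 < 2 * α := by linarith
  have k3 : 0 < 2 * β := by linarith
  change S.card ≤ (flats (img V t₁ (2 * α)) (img V t₃ (2 * β)) (img V t₂ 1)).card
  set A := img V t₁ (2 * α) with hA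
  set B := img V t₃ (2 * β) with hB'
  set C := img V t₂ 1 with hC
  have hinj : Set.InjOn (fun g => (Mx A (u g), Mx C (u g), Mx B (u g))) (S : Set ι) := by
    intro g hg g' hg' he
    have e1 : Mx A (u g) = Mx A (u g') := congrArg Prod.fst he
    have e2 : Mx C (u g) = Mx C (u g') := congrArg (fun x => x.2.1) he
    have e3 : Mx B (u g) = Mx B (u g') := congrArg (fun x => x.2.2) he
    obtain ⟨a1, a2, a3, a4⟩ := h g hg
    obtain ⟨b1, b2, b3, -⟩ := h g' hg'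
    have ne2 : ∀ X : Finset (E × ℝ), X.card = 2 → X.Nonempty := fun X hX => by
      rw [← Finset.card_pos, hX]; norm_num
    have ne1 : ∀ X : Finset (E × ℝ), X.card = 1 → X.Nonempty := fun X hX => by
      rw [← Finset.card_pos, hX]; norm_num
    exact inj' D k1 one_pos k3 h13 (hS hg) (hS hg') a4 (ne2 _ a1) (ne1 _ a2) (ne2 _ a3)
      (ne2 _ b1) (ne1 _ b2) (ne2 _ b3) e1 e2 e3
  rw [← Finset.card_image_of_injOn hinj]
  refine (Finset.card_le_card (t := (flats A B C).image (fun x => (x.1, {x.2.1}, x.2.2))) ?_).trans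
    Finset.card_image_le
  intro z hz
  obtain ⟨g, hg, rfl⟩ := Finset.mem_image.1 hz
  obtain ⟨a1, a2, a3, a4⟩ := h g hg
  obtain ⟨c, hc, hflat⟩ := isFlat' D hα hβ hαβ ht h13 (hS hg) a4 a1 a2 a3
  rw [Finset.mem_image]
  refine ⟨(Mx A (u g), c, Mx B (u g)), mem_flats.2 ⟨u g, hflat⟩, ?_⟩
  show (Mx A (u g), ({c} : Finset E), Mx B (u g)) = (Mx A (u g), Mx C (u g), Mx B (u g))
  rw [hc]

end KPH
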