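import Pool.Agent.KPH.Stmts
import Pool.Agent.TPH.Closed

/-!
# Facets with exactly two vertices in a middle touched layer
-/

set_option autoImplicit false

namespace KPH

open TPH

namespace MMidD

variable {V : Finset (E × ℝ)} {ι : Type} {G : Finset ι} {u : ι → E} {s q : ι → ℝ}

/-- The case of a large middle layer. -/
theorem big (D : Tr.Data V G u s q) {t₁ t₂ t₃ : ℝ} {S : Finset ι} (hB : Btw t₁ t₂ t₃)
    (hS : S ⊆ G) (h : ∀ g ∈ S, (Zr V (u g) (s g) (q g) t₂).card = 2 ∧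
      (Zr V (u g) (s g) (q g) t₁).Nonempty ∧ (Zr V (u g) (s g) (q g) t₃).Nonempty)
    (h3 : 3 ≤ (Tr.lay V t₂).card) : S.card ≤ 24 * (Tr.lay V t₂).card := by
  rcases hB with ⟨h12, h23⟩ | ⟨h32, h21⟩
  · exact Tr.count_mid D TPH.Closed.edge_lin h12 h23 h3 S hS (fun g hg => (h g hg).1)
      (fun g hg => (h g hg).2.1) (fun g hg => (h g hg).2.2)
  · exact Tr.count_mid D TPH.Closed.edge_lin h32 h21 h3 S hS (fun g hg => (h g hg).1)
      (fun g hg => (h g hg).2.2) (fun g hg => (h g hg).2.1)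

/-- The case of a small middle layer. -/
theorem small (D : Tr.Data V G u s q) {t₁ t₂ t₃ : ℝ} {S : Finset ι} (hB : Btw t₁ t₂ t₃)
    (hS : S ⊆ G) (h : ∀ g ∈ S, (Zr V (u g) (s g) (q g) t₂).card = 2 ∧
      (Zr V (u g) (s g) (q g) t₁).Nonempty ∧ (Zr V (u g) (s g) (q g) t₃).Nonempty)
    (h3 : (Tr.lay V t₂).card ≤ 2) : S.card ≤ 2 * (Tr.lay V t₁).card := by
  classical
  have hne : t₁ ≠ t₂ := hB.ne.1
  have hzl : ∀ g ∈ S, Zr V (u g) (s g) (q g) t₂ = Tr.lay V t₂ := by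
    intro g hg
    refine Finset.eq_of_subset_of_card_le ?_ ?_
    · intro v hv
      have hv' := Tr.mem_zer.1 hv
      exact Tr.mem_lay.2 ⟨hv'.1, hv'.2.1⟩
    · rw [(h g hg).1]
      exact h3
  -- the chosen vertex in the first outer layer
  have hch : ∀ g : ι, ∃ z : E × ℝ, g ∈ S → z ∈ Zr V (u g) (s g) (q g) t₁ := by
    intro g
    by_cases hg : g ∈ S
    · obtain ⟨z, hz⟩ := (h g hg).2.1
      exact ⟨z, fun _ => hz⟩
    · exact ⟨(0, 0), fun hg' => absurd hg' hg⟩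
  choose z hz using hch
  have hmaps : ∀ g ∈ S, z g ∈ Tr.lay V t₁ := by
    intro g hg
    have hv' := Tr.mem_zer.1 (hz g hg)
    exact Tr.mem_lay.2 ⟨hv'.1, hv'.2.1⟩
  refine Finset.card_le_mul_card_image_of_maps_to (f := z) hmaps 2 ?_
  intro w hw
  rcases S.eq_empty_or_nonempty with hS0 | ⟨g1, hg1⟩
  · rw [hS0, Finset.filter_empty, Finset.card_empty]
    exact Nat.zero_le _
  have hc2 : (Tr.lay V t₂).card = 2 := by
    rw [← hzl g1 hg1]
    exact (h g1 hg1).1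
  obtain ⟨x, y, hxy, hl⟩ := Finset.card_eq_two.1 hc2
  have hx : x ∈ Tr.lay V t₂ := by rw [hl]; simp
  have hy : y ∈ Tr.lay V t₂ := by rw [hl]; simp
  have hx' := Tr.mem_lay.1 hx
  have hy' := Tr.mem_lay.1 hy
  have hw' := Tr.mem_lay.1 hw
  refine D.two x hx'.1 y hy'.1 w hw'.1 hxy ?_ ?_ _
    (fun g hg => hS (Finset.mem_filter.1 hg).1) ?_
  · rintro rfl
    exact hne (hw'.2.symm.trans hx'.2)
  · rintro rfl
    exact hne (hw'.2.symm.trans hy'.2)
  · intro g hg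
    obtain ⟨hgS, hgw⟩ := Finset.mem_filter.1 hg
    have k := hzl g hgS
    have kx : x ∈ Zr V (u g) (s g) (q g) t₂ := by rw [k]; exact hx
    have ky : y ∈ Zr V (u g) (s g) (q g) t₂ := by rw [k]; exact hy
    have kz := hz g hgS
    rw [hgw] at kz
    exact ⟨(Tr.mem_zer.1 kx).2.2, (Tr.mem_zer.1 ky).2.2, (Tr.mem_zer.1 kz).2.2⟩

end MMidD

theorem t_MidD : StmtMidD := by
  intro ι V G u s q D t₁ t₂ t₃ S hB hS h
  by_cases h3 : 3 ≤ (Tr.lay V t₂).card
  · have := MMidD.big D hB hS h h3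
    omega
  · have := MMidD.small D hB hS h (by omega)
    omega

end KPH
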