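import Pool.Agent.KPH.Stmts

/-!
# Vertices on `k` parallel hyperplanes: a nondegenerate flat from a middle layer
-/

set_option autoImplicit false

namespace KPH

open TPH

namespace MNDg

/-- There is a touched middle layer. -/
theorem exists_mid {ι : Type} {V : Finset (E × ℝ)} {G : Finset ι} {u : ι → E} {s q : ι → ℝ}
    (D : Tr.Data V G u s q) {g : ι} (hg : g ∈ G) {t₁ t₃ : ℝ}
    (h1 : (Zr V (u g) (s g) (q g) t₁).card = 2) (h3 : (Zr V (u g) (s g) (q g) t₃).card = 2) :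
    ∃ x ∈ V, Tr.val (u g) (s g) x = q g ∧ x.2 ≠ t₁ ∧ x.2 ≠ t₃ := by
  classical
  obtain ⟨Z, hZ, hZV⟩ := D.five g hg
  by_contra hcon
  push Not at hcon
  have hsub : Z ⊆ Zr V (u g) (s g) (q g) t₁ ∪ Zr V (u g) (s g) (q g) t₃ := by
    intro v hv
    have hv' := hZV v hv
    rw [Finset.mem_union, Tr.mem_zer, Tr.mem_zer]
    by_cases hh : v.2 = t₁
    · exact Or.inl ⟨hv'.1, hh, hv'.2⟩
    · exact Or.inr ⟨hv'.1, hcon v hv'.1 hv'.2 hh, hv'.2⟩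
  have e1 := Finset.card_le_card hsub
  have e2 := Finset.card_union_le (Zr V (u g) (s g) (q g) t₁) (Zr V (u g) (s g) (q g) t₃)
  omega

/-- The linear algebra of two failures. -/
theorem two_fail {w v₀ v₁ a a' b : E} {σ ρ s₀ q₀ s₁ q₁ t₁ t₃ : ℝ} (h13 : t₁ ≠ t₃) (hw : w ≠ 0)
    (haa : a ≠ a') (hv1 : ∀ κ : ℝ, v₁ ≠ κ • w)
    (wa : ip a w + σ * t₁ = ρ) (wa' : ip a' w + σ * t₁ = ρ) (wb : ip b w + σ * t₃ = ρ)
    (a0 : ip a v₀ + s₀ * t₁ = q₀) (a0' : ip a' v₀ + s₀ * t₁ = q₀) (b0 : ip b v₀ + s₀ * t₃ = q₀)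
    (a1 : ip a v₁ + s₁ * t₁ = q₁) (a1' : ip a' v₁ + s₁ * t₁ = q₁) (b1 : ip b v₁ + s₁ * t₃ = q₁) :
    ∃ α β : ℝ, v₀ = α • w + β • v₁ ∧ s₀ = α * σ + β * s₁ ∧ q₀ = α * ρ + β * q₁ := by
  have hd : a - a' ≠ 0 := sub_ne_zero.2 haa
  have dw : ip (a - a') w = 0 := by rw [ip_sub_left]; linarith
  have d0 : ip (a - a') v₀ = 0 := by rw [ip_sub_left]; linarith
  have d1 : ip (a - a') v₁ = 0 := by rw [ip_sub_left]; linarith
  have hcr : cr w v₁ ≠ 0 := by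
    intro h
    obtain ⟨k, hk⟩ := par_of_cr hw h
    exact hv1 k hk
  obtain ⟨α, β, hαβ⟩ := comb_of_perp hd hcr dw d1 d0
  refine ⟨α, β, hαβ, ?_⟩
  have ea : ip a v₀ = α * ip a w + β * ip a v₁ := by
    rw [hαβ, ip_add_right, ip_smul_right, ip_smul_right]
  have eb : ip b v₀ = α * ip b w + β * ip b v₁ := by
    rw [hαβ, ip_add_right, ip_smul_right, ip_smul_right]
  have e1 : (s₀ - (α * σ + β * s₁)) * t₁ = q₀ - (α * ρ + β * q₁) := by
    rw [← a0, ea, ← wa, ← a1]; ring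
  have e3 : (s₀ - (α * σ + β * s₁)) * t₃ = q₀ - (α * ρ + β * q₁) := by
    rw [← b0, eb, ← wb, ← b1]; ring
  have e4 : (s₀ - (α * σ + β * s₁)) * (t₁ - t₃) = 0 := by rw [mul_sub, e1, e3, sub_self]
  have e5 : s₀ - (α * σ + β * s₁) = 0 := by
    rcases mul_eq_zero.1 e4 with h | h
    · exact h
    · exact absurd (sub_eq_zero.1 h) h13
  rw [e5, zero_mul] at e1
  exact ⟨sub_eq_zero.1 e5, (sub_eq_zero.1 e1.symm)⟩

end MNDg

theorem t_NDg : StmtNDg := by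
  classical
  intro ι V G u s q D g hg t₁ t₃ h13 c1 c3 hmid
  by_contra hcon
  push Not at hcon
  -- the failures
  have fail : ∀ t, (Zr V (u g) (s g) (q g) t).Nonempty → t ≠ t₁ → t ≠ t₃ →
      ∃ (v : E) (s' q' : ℝ), (∀ x : E × ℝ, (x ∈ Zr V (u g) (s g) (q g) t₁ ∨
        x ∈ Zr V (u g) (s g) (q g) t ∨ x ∈ Zr V (u g) (s g) (q g) t₃) → Tr.val v s' x = q') ∧
        ∀ κ : ℝ, v ≠ κ • u g := by
    intro t ht n1 n3
    rcases hmid t ht with h | h | ⟨h, h', hc⟩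
    · exact absurd h n1
    · exact absurd h n3
    · have hf := hcon t (Or.inl ⟨h, h'⟩) hc
      rw [NDg] at hf
      push Not at hf
      exact hf
  -- the vertices of the extreme layers
  obtain ⟨x, x', hxx, hx⟩ := Finset.card_eq_two.1 c1
  obtain ⟨y, hy⟩ := Finset.card_pos.1 (by omega : 0 < (Zr V (u g) (s g) (q g) t₃).card)
  have hx1 : x ∈ Zr V (u g) (s g) (q g) t₁ := by rw [hx]; simp
  have hx2 : x' ∈ Zr V (u g) (s g) (q g) t₁ := by rw [hx]; simp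
  have mx := Tr.mem_zer.1 hx1
  have mx' := Tr.mem_zer.1 hx2
  have my := Tr.mem_zer.1 hy
  have hne : x.1 ≠ x'.1 := fun h => hxx (Prod.ext h (mx.2.1.trans mx'.2.1.symm))
  have vx : ∀ (v : E) (s' : ℝ), Tr.val v s' x = ip x.1 v + s' * t₁ := by
    intro v s'; rw [Tr.val, mx.2.1]
  have vx' : ∀ (v : E) (s' : ℝ), Tr.val v s' x' = ip x'.1 v + s' * t₁ := by
    intro v s'; rw [Tr.val, mx'.2.1]
  have vy : ∀ (v : E) (s' : ℝ), Tr.val v s' y = ip y.1 v + s' * t₃ := by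
    intro v s'; rw [Tr.val, my.2.1]
  have hu : u g ≠ 0 := by
    intro h0
    have e1 := mx.2.2
    have e3 := my.2.2
    rw [vx, h0, ip_zero_right, zero_add] at e1
    rw [vy, h0, ip_zero_right, zero_add] at e3
    have e4 : s g * (t₁ - t₃) = 0 := by rw [mul_sub, e1, e3, sub_self]
    rcases mul_eq_zero.1 e4 with h | h
    · exact D.nz g hg h0 h
    · exact absurd (sub_eq_zero.1 h) h13.ne
  -- one middle layer
  obtain ⟨z, hzV, hzv, hz1, hz3⟩ := MNDg.exists_mid D hg c1 c3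
  obtain ⟨v₀, s₀, q₀, hv0, hn0⟩ := fail z.2 ⟨z, Tr.mem_zer.2 ⟨hzV, rfl, hzv⟩⟩ hz1 hz3
  -- the functional takes the value `q₀` on the whole facet
  have hall : ∀ v ∈ V, Tr.val (u g) (s g) v = q g → Tr.val v₀ s₀ v = q₀ := by
    intro v hv hval
    by_cases e1 : v.2 = t₁
    · exact hv0 v (Or.inl (Tr.mem_zer.2 ⟨hv, e1, hval⟩))
    by_cases e3 : v.2 = t₃
    · exact hv0 v (Or.inr (Or.inr (Tr.mem_zer.2 ⟨hv, e3, hval⟩)))
    have hvz : v ∈ Zr V (u g) (s g) (q g) v.2 := Tr.mem_zer.2 ⟨hv, rfl, hval⟩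
    obtain ⟨v₁, s₁, q₁, hv1, hn1⟩ := fail v.2 ⟨v, hvz⟩ e1 e3
    obtain ⟨α, β, k1, k2, k3⟩ := MNDg.two_fail (w := u g) (v₀ := v₀) (v₁ := v₁) (a := x.1) (a' := x'.1)
      (b := y.1) (σ := s g) (ρ := q g) (s₀ := s₀) (q₀ := q₀) (s₁ := s₁) (q₁ := q₁) h13.ne hu hne hn1
      (by rw [← vx]; exact mx.2.2) (by rw [← vx']; exact mx'.2.2) (by rw [← vy]; exact my.2.2)
      (by rw [← vx]; exact hv0 x (Or.inl hx1)) (by rw [← vx']; exact hv0 x' (Or.inl hx2))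
      (by rw [← vy]; exact hv0 y (Or.inr (Or.inr hy)))
      (by rw [← vx]; exact hv1 x (Or.inl hx1)) (by rw [← vx']; exact hv1 x' (Or.inl hx2))
      (by rw [← vy]; exact hv1 y (Or.inr (Or.inr hy)))
    have e5 := hv1 v (Or.inr (Or.inl hvz))
    rw [Tr.val] at e5 hval
    rw [Tr.val, k1, k2, k3, ip_add_right, ip_smul_right, ip_smul_right, ← e5, ← hval]
    ring
  obtain ⟨k, hk, -, -⟩ := D.span g hg v₀ s₀ q₀ hall
  exact hn0 k hk

end KPH
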