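import Pool.Agent.KPH.Stmts

/-!
# An exposing functional of a vertex is in all the cones
-/

set_option autoImplicit false

namespace KPH

open TPH

namespace MRayD

theorem comb {α β X Y Z s t₁ t₂ t₃ : ℝ} (hα : 0 < α) (hβ : 0 < β) (hab : α + β = 1)
    (ht : α * t₁ + β * t₃ = t₂) (h1 : X + s * t₁ < Z + s * t₂) (h2 : Y + s * t₃ < Z + s * t₂) :
    2 * α * X + 2 * β * Y < 2 * Z := by
  have e1 := mul_lt_mul_of_pos_left h1 hα
  have e2 := mul_lt_mul_of_pos_left h2 hβ
  have e3 : α * (X + s * t₁) + β * (Y + s * t₃) = α * X + β * Y + s * t₂ := by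
    rw [← ht]; ring
  have e4 : α * (Z + s * t₂) + β * (Z + s * t₂) = Z + s * t₂ := by
    rw [← add_mul, hab, one_mul]
  linarith

end MRayD

theorem t_RayD : StmtRayD := by
  classical
  intro V v r s₀ hv h
  constructor
  · have hnn : ∀ w ∈ V, Tr.val r s₀ w ≤ Tr.val r s₀ v := by
      intro w hw
      by_cases hwv : w = v
      · rw [hwv]
      · exact (h w hw hwv).le
    have hz : Tr.zer V v.2 r s₀ (Tr.val r s₀ v) = {v} := by
      ext w
      rw [Tr.mem_zer, Finset.mem_singleton]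
      constructor
      · rintro ⟨h1, -, h3⟩
        by_contra hwv
        exact (h w h1 hwv).ne h3
      · intro hw
        rw [hw]
        exact ⟨hv, rfl, rfl⟩
    rw [CC, Tr.Mx_img one_pos hnn (by rw [hz]; exact ⟨v, by simp⟩), hz, Finset.image_singleton,
      one_smul]
  · intro t₁ t₃ hB a ha b hb
    rw [AA, Tr.mem_img] at ha
    rw [BB, Tr.mem_img] at hb
    obtain ⟨x, hx, rfl⟩ := ha
    obtain ⟨y, hy, rfl⟩ := hb
    have hx' := Tr.mem_lay.1 hx
    have hy' := Tr.mem_lay.1 hy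
    have h1 := h x hx'.1 fun e => hB.ne.1 (by rw [← hx'.2, e])
    have h2 := h y hy'.1 fun e => hB.ne.2.1 (by rw [← hy'.2, e])
    rw [Tr.val, Tr.val, hx'.2] at h1
    rw [Tr.val, Tr.val, hy'.2] at h2
    rw [ip_smul_left, ip_smul_left]
    exact MRayD.comb hB.wt_pos hB.symm.wt_pos hB.wt_add hB.wt_eq h1 h2

end KPH
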