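import Pool.Agent.KPH.Stmts

/-!
# Vertices on `k` parallel hyperplanes: the sum over the vertex of the layer `tc`, type I
-/

set_option autoImplicit false

namespace KPH

open TPH

namespace MSumI

/-- Covering by the fibres over the elements of a layer. -/
theorem sum_fibres {ι : Type} (L : Finset (E × ℝ)) (S : Finset ι) (Z : ι → Finset (E × ℝ))
    (hZ : ∀ g ∈ S, (Z g).card = 1) (hL : ∀ g ∈ S, Z g ⊆ L) (f : E × ℝ → ℕ) (c : ℕ)
    (hf : ∀ v ∈ L, ∀ F : Finset ι, F ⊆ S → (∀ g ∈ F, Z g = {v}) → F.card ≤ f v + c) :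
    S.card ≤ (∑ v ∈ L, f v) + c * L.card := by
  classical
  have h1 : S ⊆ L.biUnion (fun v => S.filter (fun g => Z g = {v})) := by
    intro g hg
    obtain ⟨v, hv⟩ := Finset.card_eq_one.1 (hZ g hg)
    rw [Finset.mem_biUnion]
    refine ⟨v, hL g hg (by rw [hv]; exact Finset.mem_singleton_self v), ?_⟩
    exact Finset.mem_filter.2 ⟨hg, hv⟩
  calc S.card ≤ (L.biUnion (fun v => S.filter (fun g => Z g = {v}))).card :=
        Finset.card_le_card h1
    _ ≤ ∑ v ∈ L, (S.filter (fun g => Z g = {v})).card := Finset.card_biUnion_le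
    _ ≤ ∑ v ∈ L, (f v + c) := by
        refine Finset.sum_le_sum fun v hv => ?_
        exact hf v hv _ (Finset.filter_subset _ _) (fun g hg => (Finset.mem_filter.1 hg).2)
    _ = (∑ v ∈ L, f v) + c * L.card := by
        rw [Finset.sum_add_distrib, Finset.sum_const, smul_eq_mul, mul_comm]

end MSumI

theorem t_SumI (hTypeI : StmtTypeI) : StmtSumI := by
  intro ι V G u s q D tA tc tD tB S h1 h2 h3 hS hc
  have hmain := MSumI.sum_fibres (Tr.lay V tc) S (fun g => Zr V (u g) (s g) (q g) tc)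
    (fun g hg => (hc g hg).2.1)
    (by
      intro g hg v hv
      have hv' := Tr.mem_zer.1 hv
      exact Tr.mem_lay.2 ⟨hv'.1, hv'.2.1⟩)
    (fun v => 12 * (evd V tA tc tD v + evd V tA tc tB v)) 6
    (by
      intro v hv F hF hFv
      refine hTypeI ι V G u s q D tA tc tD tB v F h1 h2 h3 (Tr.mem_lay.1 hv).1
        (hF.trans hS) ?_
      intro g hg
      obtain ⟨a1, -, a3, a4⟩ := hc g (hF hg)
      exact ⟨a1, hFv g hg, a3, a4⟩)
  have hsum : (∑ v ∈ Tr.lay V tc, 12 * (evd V tA tc tD v + evd V tA tc tB v)) =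
      12 * (Wd V tA tc tD + Wd V tA tc tB) := by
    rw [← Finset.mul_sum, Finset.sum_add_distrib, Wd, Wd]
  rw [hsum] at hmain
  exact hmain

end KPH
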