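import Pool.Agent.KPH.Stmts

/-!
# Sum of the bounds for type II over the vertex of the middle layer
-/

set_option autoImplicit false

namespace KPH

open TPH

theorem t_SumII (hTypeII : StmtTypeII) : StmtSumII := by
  classical
  intro ι V G u s q hD t₁ t₂ tc t₄ t₅ S h14 h15 h24 h25 h12 h45 hSG hS
  have hcov : S ⊆ (Tr.lay V tc).biUnion (fun v => S.filter (fun g => Zr V (u g) (s g) (q g) tc = {v})) := by
    intro g hg
    obtain ⟨v, hv⟩ := Finset.card_eq_one.mp (hS g hg).2.2.1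
    have h1 : v ∈ Zr V (u g) (s g) (q g) tc := by rw [hv]; exact Finset.mem_singleton_self v
    have h2 := Tr.mem_zer.mp h1
    exact Finset.mem_biUnion.mpr ⟨v, Tr.mem_lay.mpr ⟨h2.1, h2.2.1⟩, Finset.mem_filter.mpr ⟨hg, hv⟩⟩
  have hb : ∀ v ∈ Tr.lay V tc, (S.filter (fun g => Zr V (u g) (s g) (q g) tc = {v})).card ≤
      12 * (evd V t₁ tc t₄ v + evd V t₁ tc t₅ v + evd V t₂ tc t₄ v + evd V t₂ tc t₅ v) + 6 := by
    intro v hv
    refine hTypeII ι V G u s q hD t₁ t₂ tc t₄ t₅ v _ h14 h15 h24 h25 h12 h45 (Tr.mem_lay.mp hv).1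
      ((Finset.filter_subset _ _).trans hSG) ?_
    intro g hg
    obtain ⟨hg1, hg2⟩ := Finset.mem_filter.mp hg
    obtain ⟨a, b, _, c, d⟩ := hS g hg1
    exact ⟨a, b, hg2, c, d⟩
  calc S.card ≤ ((Tr.lay V tc).biUnion (fun v => S.filter (fun g => Zr V (u g) (s g) (q g) tc = {v}))).card :=
        Finset.card_le_card hcov
    _ ≤ ∑ v ∈ Tr.lay V tc, (S.filter (fun g => Zr V (u g) (s g) (q g) tc = {v})).card :=
        Finset.card_biUnion_le
    _ ≤ ∑ v ∈ Tr.lay V tc,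
          (12 * (evd V t₁ tc t₄ v + evd V t₁ tc t₅ v + evd V t₂ tc t₄ v + evd V t₂ tc t₅ v) + 6) :=
        Finset.sum_le_sum hb
    _ = 12 * (Wd V t₁ tc t₄ + Wd V t₁ tc t₅ + Wd V t₂ tc t₄ + Wd V t₂ tc t₅) + 6 * (Tr.lay V tc).card := by
        rw [Finset.sum_add_distrib, ← Finset.mul_sum, Finset.sum_add_distrib, Finset.sum_add_distrib,
          Finset.sum_add_distrib, Finset.sum_const, smul_eq_mul, mul_comm (Tr.lay V tc).card 6]
        rfl

end KPH
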