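import Pool.Agent.KPH.Stmts

/-!
# A facet which touches three layers gives a tie
-/

set_option autoImplicit false

namespace KPH

open TPH

theorem t_TieD : StmtTieD := by
  classical
  intro ι V G u s q D g hg t₁ t₂ t₃ v hB hv h1 h3
  have hnn := D.nn g hg
  have hα := hB.wt_pos
  have hβ := hB.symm.wt_pos
  have hab := hB.wt_add
  have ht := hB.wt_eq
  have kα : 0 < 2 * wt t₁ t₂ t₃ := by linarith
  have kβ : 0 < 2 * wt t₃ t₂ t₁ := by linarith
  have hv' := Tr.mem_zer.1 hv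
  have hvv : ip v.1 (u g) = q g - s g * t₂ := by
    have h := hv'.2.2
    rw [Tr.val, hv'.2.1] at h
    linarith
  have nA : (Mx (AA V t₁ t₂ t₃) (u g)).Nonempty := by
    rw [← Finset.card_pos, AA, Tr.card_Mx kα hnn h1]
    exact Finset.card_pos.2 h1
  have nB : (Mx (BB V t₁ t₂ t₃) (u g)).Nonempty := by
    rw [← Finset.card_pos, BB, Tr.card_Mx kβ hnn h3]
    exact Finset.card_pos.2 h3
  obtain ⟨a, ha⟩ := nA
  obtain ⟨b, hb⟩ := nB
  have ea := Tr.ip_of_mem kα hnn h1 ha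
  have eb := Tr.ip_of_mem kβ hnn h3 hb
  have heq : ip a (u g) + ip b (u g) = 2 * ip v.1 (u g) := by
    rw [ea, eb, hvv]
    have h : wt t₃ t₂ t₁ = 1 - wt t₁ t₂ t₃ := by linarith
    have h2 : t₂ = wt t₁ t₂ t₃ * t₁ + (1 - wt t₁ t₂ t₃) * t₃ := by rw [← h]; exact ht.symm
    rw [h]
    have h4 : s g * t₂ = s g * (wt t₁ t₂ t₃ * t₁ + (1 - wt t₁ t₂ t₃) * t₃) := by rw [← h2]
    linear_combination 2 * h4
  refine ⟨?_, ⟨inRc_of_mem ha hb heq.le, fun h => ?_⟩, ?_, ?_, ?_⟩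
  · intro h0
    obtain ⟨x, hx⟩ := h1
    have hx' := Tr.mem_zer.1 hx
    have e1 := hx'.2.2
    have e2 := hv'.2.2
    rw [Tr.val, h0, ip_zero_right, hx'.2.1] at e1
    rw [Tr.val, h0, ip_zero_right, hv'.2.1] at e2
    have h : s g * (t₁ - t₂) = 0 := by linarith
    rcases mul_eq_zero.1 h with h | h
    · exact D.nz g hg h0 h
    · exact hB.ne.1 (sub_eq_zero.1 h)
  · have h' := h a (Mx_subset _ _ ha) b (Mx_subset _ _ hb)
    linarith
  · intro hz
    have hz' : Tr.zer V t₂ (u g) (s g) (q g) = {v} := hz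
    rw [CC, Tr.Mx_img one_pos hnn ⟨v, hv⟩, hz', Finset.image_singleton, one_smul]
  · exact Tr.card_Mx kα hnn h1
  · exact Tr.card_Mx kβ hnn h3

end KPH
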