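import Pool.Agent.KPH.Stmts
import Pool.Agent.TPH.Closed

/-!
# Vertices on `k` parallel hyperplanes: the total count
-/

set_option autoImplicit false

namespace KPH

open TPH

namespace MTotalD

theorem sum_lay {V : Finset (E × ℝ)} {T : Finset ℝ} (hT : ∀ v ∈ V, v.2 ∈ T) :
    ∑ t ∈ T, ((Tr.lay V t).card : ℝ) = V.card := by
  classical
  have h := Finset.card_eq_sum_card_fiberwise (f := fun v : E × ℝ => v.2) (s := V) (t := T)
    (fun v hv => hT v hv)
  rw [h]
  push_cast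
  refine Finset.sum_congr rfl (fun t _ => ?_)
  have : Tr.lay V t = V.filter (fun v => v.2 = t) := by
    ext v
    rw [Tr.mem_lay, Finset.mem_filter]
  rw [this]

theorem lay_le {V : Finset (E × ℝ)} {t₁ t₂ t₃ : ℝ} (h : Btw t₁ t₂ t₃) :
    (Tr.lay V t₁).card + (Tr.lay V t₂).card + (Tr.lay V t₃).card ≤ V.card := by
  classical
  have d1 : Disjoint (Tr.lay V t₁) (Tr.lay V t₂) := by
    rw [Finset.disjoint_left]
    intro v h1 h2
    exact h.ne.1 ((Tr.mem_lay.1 h1).2.symm.trans (Tr.mem_lay.1 h2).2)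
  have d2 : Disjoint (Tr.lay V t₁ ∪ Tr.lay V t₂) (Tr.lay V t₃) := by
    rw [Finset.disjoint_left]
    intro v h1 h2
    rcases Finset.mem_union.1 h1 with h3 | h3
    · exact h.ne.2.2 ((Tr.mem_lay.1 h3).2.symm.trans (Tr.mem_lay.1 h2).2)
    · exact h.ne.2.1 ((Tr.mem_lay.1 h3).2.symm.trans (Tr.mem_lay.1 h2).2)
  rw [← Finset.card_union_of_disjoint d1, ← Finset.card_union_of_disjoint d2]
  refine Finset.card_le_card ?_
  intro v hv
  rcases Finset.mem_union.1 hv with h1 | h1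
  · rcases Finset.mem_union.1 h1 with h2 | h2 <;> exact (Tr.mem_lay.1 h2).1
  · exact (Tr.mem_lay.1 h1).1

/-- From the bound for the square to a bound with a square root. -/
theorem sqrt_bound {K x m n : ℕ} (h : x ^ 2 ≤ K * m ^ 3) (hmn : m ≤ n) :
    (x : ℝ) ≤ √K * m * √n := by
  apply le_of_sq_le_sq _ (by positivity)
  rw [mul_pow, mul_pow, Real.sq_sqrt (Nat.cast_nonneg K), Real.sq_sqrt (Nat.cast_nonneg n)]
  have h1 : (x : ℝ) ^ 2 ≤ K * (m : ℝ) ^ 3 := by exact_mod_cast h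
  have h2 : (m : ℝ) ≤ n := by exact_mod_cast hmn
  have h3 : (0 : ℝ) ≤ K * (m : ℝ) ^ 2 := by positivity
  calc (x : ℝ) ^ 2 ≤ K * (m : ℝ) ^ 3 := h1
    _ = (K * (m : ℝ) ^ 2) * m := by ring
    _ ≤ (K * (m : ℝ) ^ 2) * n := mul_le_mul_of_nonneg_left h2 h3

section sums

variable (T : Finset ℝ) (x : ℝ → ℝ)

theorem sum3 : ∑ a ∈ T, ∑ b ∈ T, ∑ c ∈ T, (x a + x b + x c) =
    3 * (T.card : ℝ) ^ 2 * ∑ t ∈ T, x t := by
  simp only [Finset.sum_add_distrib, Finset.sum_const, nsmul_eq_mul, ← Finset.mul_sum]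
  ring

theorem sum3' (α β : ℝ) : ∑ a ∈ T, ∑ b ∈ T, ∑ c ∈ T, (α * x b + β * x a) =
    (α + β) * (T.card : ℝ) ^ 2 * ∑ t ∈ T, x t := by
  simp only [Finset.sum_add_distrib, Finset.sum_const, nsmul_eq_mul, ← Finset.mul_sum]
  ring

theorem sum4 (α β : ℝ) : ∑ a ∈ T, ∑ b ∈ T, ∑ c ∈ T, ∑ d ∈ T,
    (α * ((x a + x b + x c) + (x a + x b + x d)) + β * x b) =
    (6 * α + β) * (T.card : ℝ) ^ 3 * ∑ t ∈ T, x t := by
  simp only [Finset.sum_add_distrib, Finset.sum_const, nsmul_eq_mul, ← Finset.mul_sum]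
  ring

theorem sum5 (α β : ℝ) : ∑ a ∈ T, ∑ b ∈ T, ∑ c ∈ T, ∑ d ∈ T, ∑ e ∈ T,
    (α * ((x a + x c + x d) + (x a + x c + x e) + (x b + x c + x d) + (x b + x c + x e)) +
      β * x c) =
    (12 * α + β) * (T.card : ℝ) ^ 4 * ∑ t ∈ T, x t := by
  simp only [Finset.sum_add_distrib, Finset.sum_const, nsmul_eq_mul, ← Finset.mul_sum]
  ring

end sums

section unions

variable {ι : Type} (T : Finset ℝ)

open Classical in
theorem card3 (F : ℝ → ℝ → ℝ → Finset ι) (y : ℝ → ℝ → ℝ → ℝ)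
    (h : ∀ a ∈ T, ∀ b ∈ T, ∀ c ∈ T, ((F a b c).card : ℝ) ≤ y a b c) :
    ((T.biUnion fun a => T.biUnion fun b => T.biUnion fun c => F a b c).card : ℝ) ≤
      ∑ a ∈ T, ∑ b ∈ T, ∑ c ∈ T, y a b c := by
  have step : ∀ (F' : ℝ → Finset ι) (y' : ℝ → ℝ), (∀ a ∈ T, ((F' a).card : ℝ) ≤ y' a) →
      ((T.biUnion F').card : ℝ) ≤ ∑ a ∈ T, y' a := by
    intro F' y' h'
    calc ((T.biUnion F').card : ℝ) ≤ ((∑ a ∈ T, (F' a).card : ℕ) : ℝ) := by
          exact_mod_cast Finset.card_biUnion_le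
      _ = ∑ a ∈ T, ((F' a).card : ℝ) := by push_cast; rfl
      _ ≤ ∑ a ∈ T, y' a := Finset.sum_le_sum h'
  exact step _ _ fun a ha => step _ _ fun b hb => step _ _ fun c hc => h a ha b hb c hc

open Classical in
theorem card1 (F' : ℝ → Finset ι) (y' : ℝ → ℝ) (h' : ∀ a ∈ T, ((F' a).card : ℝ) ≤ y' a) :
    ((T.biUnion F').card : ℝ) ≤ ∑ a ∈ T, y' a := by
  calc ((T.biUnion F').card : ℝ) ≤ ((∑ a ∈ T, (F' a).card : ℕ) : ℝ) := by
        exact_mod_cast Finset.card_biUnion_le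
    _ = ∑ a ∈ T, ((F' a).card : ℝ) := by push_cast; rfl
    _ ≤ ∑ a ∈ T, y' a := Finset.sum_le_sum h'

end unions

end MTotalD

open MTotalD in
theorem t_TotalD (hWd : StmtWd) (hSumI : StmtSumI) (hSumII : StmtSumII) (hFlatD : StmtFlatD)
    (hNDg : StmtNDg) (hMidD : StmtMidD) (hZeroD : StmtZeroD) (hClass : StmtClass) :
    StmtTotalD := by
  classical
  obtain ⟨K₁, hK₁⟩ := hWd
  obtain ⟨K₂, hK₂⟩ := TPH.Closed.flats_bound
  set L : ℝ := √K₁ with hL
  set M : ℝ := √K₂ with hM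
  have hL0 : 0 ≤ L := Real.sqrt_nonneg _
  have hM0 : 0 ≤ M := Real.sqrt_nonneg _
  refine ⟨43 + 3 * M + 216 * L, by positivity, ?_⟩
  intro ι V G u s q D T hT
  rcases G.eq_empty_or_nonempty with hG | ⟨g0, hg0⟩
  · rw [hG, Finset.card_empty, Nat.cast_zero]
    positivity
  have hVne : V.Nonempty := by
    obtain ⟨Z, hZ, hZV⟩ := D.five g0 hg0
    obtain ⟨v, hv⟩ := Finset.card_pos.1 (by omega : 0 < Z.card)
    exact ⟨v, (hZV v hv).1⟩
  obtain ⟨v0, hv0⟩ := hVne
  have hn1 : (1 : ℝ) ≤ V.card := by exact_mod_cast Finset.card_pos.2 ⟨v0, hv0⟩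
  have hk1 : (1 : ℝ) ≤ T.card := by exact_mod_cast Finset.card_pos.2 ⟨v0.2, hT v0 hv0⟩
  set n : ℝ := (V.card : ℝ) with hn
  set k : ℝ := (T.card : ℝ) with hk
  set x : ℝ → ℝ := fun t => ((Tr.lay V t).card : ℝ) with hx
  have hsum : ∑ t ∈ T, x t = n := sum_lay hT
  have hx0 : ∀ t, 0 ≤ x t := fun t => Nat.cast_nonneg _
  set R : ℝ := √n with hR
  have hR0 : 0 ≤ R := Real.sqrt_nonneg _
  -- the bound for `Wd`
  have hW : ∀ t₁ t₂ t₃, Btw t₁ t₂ t₃ → (Wd V t₁ t₂ t₃ : ℝ) ≤ L * R * (x t₁ + x t₂ + x t₃) := by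
    intro t₁ t₂ t₃ h
    have h1 := sqrt_bound (hK₁ V t₁ t₂ t₃ h D.exp) (lay_le h)
    push_cast at h1
    calc (Wd V t₁ t₂ t₃ : ℝ) ≤ √K₁ * (x t₁ + x t₂ + x t₃) * √(V.card : ℝ) := h1
      _ = L * R * (x t₁ + x t₂ + x t₃) := by ring
  -- the bound for flats
  have hF : ∀ t₁ t₂ t₃, Btw t₁ t₂ t₃ →
      ((flats (AA V t₁ t₂ t₃) (BB V t₁ t₂ t₃) (CC V t₂)).card : ℝ) ≤
        M * R * (x t₁ + x t₂ + x t₃) := by
    intro t₁ t₂ t₃ h
    have p1 : 0 < 2 * wt t₁ t₂ t₃ := by have := h.wt_pos; linarith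
    have p3 : 0 < 2 * wt t₃ t₂ t₁ := by have := h.symm.wt_pos; linarith
    have h0 := hK₂ (AA V t₁ t₂ t₃) (BB V t₁ t₂ t₃) (CC V t₂) (Tr.convPos_img p1 D.exp)
      (Tr.convPos_img p3 D.exp) (Tr.convPos_img one_pos D.exp)
      (Tr.exists_inR h.wt_pos h.symm.wt_pos h.wt_add h.wt_eq h.ne.1 h.ne.2.1.symm D.exp)
    rw [AA, BB, CC, Tr.card_img p1, Tr.card_img p3, Tr.card_img one_pos] at h0
    have h1 := sqrt_bound h0 (by have := lay_le (V := V) h; omega :
      (Tr.lay V t₁).card + (Tr.lay V t₃).card + (Tr.lay V t₂).card ≤ V.card)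
    push_cast at h1
    rw [AA, BB, CC]
    calc _ ≤ √K₂ * (x t₁ + x t₃ + x t₂) * √(V.card : ℝ) := h1
      _ = M * R * (x t₁ + x t₂ + x t₃) := by ring
  -- the classes
  set G0 := G.filter (fun g => u g = 0) with hG0
  set Ga : ℝ → Finset ι := fun t => G.filter (fun g => u g ≠ 0 ∧
    3 ≤ (Zr V (u g) (s g) (q g) t).card) with hGa
  set Gb : ℝ → ℝ → ℝ → Finset ι := fun t₁ t₂ t₃ => G.filter (fun g => Btw t₁ t₂ t₃ ∧
    (Zr V (u g) (s g) (q g) t₂).card = 2 ∧ (Zr V (u g) (s g) (q g) t₁).Nonempty ∧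
      (Zr V (u g) (s g) (q g) t₃).Nonempty) with hGb
  set Gc : ℝ → ℝ → ℝ → Finset ι := fun t₁ t₂ t₃ => G.filter (fun g => Btw t₁ t₂ t₃ ∧
    (Zr V (u g) (s g) (q g) t₁).card = 2 ∧ (Zr V (u g) (s g) (q g) t₂).card = 1 ∧
    (Zr V (u g) (s g) (q g) t₃).card = 2 ∧ NDg V (u g) (s g) (q g) t₁ t₂ t₃) with hGc
  set Gd : ℝ → ℝ → ℝ → ℝ → Finset ι := fun tA tc tD tB => G.filter (fun g =>
    (Btw tA tc tD ∧ Btw tA tc tB ∧ tD ≠ tB) ∧
    (Zr V (u g) (s g) (q g) tA).card = 2 ∧ (Zr V (u g) (s g) (q g) tc).card = 1 ∧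
    (Zr V (u g) (s g) (q g) tD).card = 1 ∧ (Zr V (u g) (s g) (q g) tB).card = 1) with hGd
  set Ge : ℝ → ℝ → ℝ → ℝ → ℝ → Finset ι := fun t₁ t₂ tc t₄ t₅ => G.filter (fun g =>
    (Btw t₁ tc t₄ ∧ Btw t₁ tc t₅ ∧ Btw t₂ tc t₄ ∧ Btw t₂ tc t₅ ∧ t₁ ≠ t₂ ∧ t₄ ≠ t₅) ∧
    (Zr V (u g) (s g) (q g) t₁).card = 1 ∧ (Zr V (u g) (s g) (q g) t₂).card = 1 ∧
    (Zr V (u g) (s g) (q g) tc).card = 1 ∧
    (Zr V (u g) (s g) (q g) t₄).card = 1 ∧ (Zr V (u g) (s g) (q g) t₅).card = 1) with hGe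
  have hcover : G ⊆ G0 ∪ (T.biUnion Ga) ∪
      (T.biUnion fun a => T.biUnion fun b => T.biUnion fun c => Gb a b c) ∪
      (T.biUnion fun a => T.biUnion fun b => T.biUnion fun c => Gc a b c) ∪
      (T.biUnion fun a => T.biUnion fun b => T.biUnion fun c => T.biUnion fun d => Gd a b c d) ∪
      (T.biUnion fun a => T.biUnion fun b => T.biUnion fun c => T.biUnion fun d =>
        T.biUnion fun e => Ge a b c d e) := by
    intro g hg
    by_cases hu : u g = 0
    · exact Finset.mem_union_left _ (Finset.mem_union_left _ (Finset.mem_union_left _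
        (Finset.mem_union_left _ (Finset.mem_union_left _ (Finset.mem_filter.2 ⟨hg, hu⟩)))))
    rcases hClass ι V G u s q D T hT g hg with
      ⟨t, ht, h3⟩ | ⟨a, ha, b, hb, c, hc, hB, h2, h1, h3⟩ | ⟨a, ha, c, hc, hac, h2, h2', hz⟩ |
      ⟨a, ha, b, hb, c, hc, d, hd, h⟩ | ⟨a, ha, b, hb, c, hc, d, hd, e, he, h⟩
    · exact Finset.mem_union_left _ (Finset.mem_union_left _ (Finset.mem_union_left _
        (Finset.mem_union_left _ (Finset.mem_union_right _
          (Finset.mem_biUnion.2 ⟨t, ht, Finset.mem_filter.2 ⟨hg, hu, h3⟩⟩)))))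
    · refine Finset.mem_union_left _ (Finset.mem_union_left _ (Finset.mem_union_left _
        (Finset.mem_union_right _ ?_)))
      exact Finset.mem_biUnion.2 ⟨a, ha, Finset.mem_biUnion.2 ⟨b, hb, Finset.mem_biUnion.2 ⟨c, hc,
        Finset.mem_filter.2 ⟨hg, hB, h2, h1, h3⟩⟩⟩⟩
    · refine Finset.mem_union_left _ (Finset.mem_union_left _ (Finset.mem_union_right _ ?_))
      obtain ⟨b, hB, h1, hnd⟩ := hNDg ι V G u s q D g hg a c hac h2 h2' hz
      have hbT : b ∈ T := by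
        obtain ⟨v, hv⟩ := Finset.card_pos.1 (by rw [h1]; exact one_pos :
          0 < (Zr V (u g) (s g) (q g) b).card)
        have hv' := Tr.mem_zer.1 hv
        rw [← hv'.2.1]
        exact hT v hv'.1
      exact Finset.mem_biUnion.2 ⟨a, ha, Finset.mem_biUnion.2 ⟨b, hbT, Finset.mem_biUnion.2
        ⟨c, hc, Finset.mem_filter.2 ⟨hg, hB, h2, h1, h2', hnd⟩⟩⟩⟩
    · refine Finset.mem_union_left _ (Finset.mem_union_right _ ?_)
      exact Finset.mem_biUnion.2 ⟨a, ha, Finset.mem_biUnion.2 ⟨b, hb, Finset.mem_biUnion.2 ⟨c, hc,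
        Finset.mem_biUnion.2 ⟨d, hd, Finset.mem_filter.2 ⟨hg, ⟨h.1, h.2.1, h.2.2.1⟩,
          h.2.2.2⟩⟩⟩⟩⟩
    · refine Finset.mem_union_right _ ?_
      exact Finset.mem_biUnion.2 ⟨a, ha, Finset.mem_biUnion.2 ⟨b, hb, Finset.mem_biUnion.2 ⟨c, hc,
        Finset.mem_biUnion.2 ⟨d, hd, Finset.mem_biUnion.2 ⟨e, he, Finset.mem_filter.2 ⟨hg,
          ⟨h.1, h.2.1, h.2.2.1, h.2.2.2.1, h.2.2.2.2.1, h.2.2.2.2.2.1⟩,
          h.2.2.2.2.2.2⟩⟩⟩⟩⟩⟩
  -- the bounds
  have b0 : (G0.card : ℝ) ≤ k := by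
    have := hZeroD ι V G u s q D T G0 hT (Finset.filter_subset _ _)
      (fun g hg => (Finset.mem_filter.1 hg).2)
    have h' : (G0.card : ℝ) ≤ (T.card : ℝ) := by exact_mod_cast this
    exact h'
  have ba : ((T.biUnion Ga).card : ℝ) ≤ 4 * n := by
    refine (card1 T Ga (fun t => 4 * x t) (fun t _ => ?_)).trans ?_
    · have := Tr.count_three D TPH.Closed.edge_lin (t := t) one_pos (Ga t)
        (Finset.filter_subset _ _) (fun g hg => (Finset.mem_filter.1 hg).2.1)
        (fun g hg => (Finset.mem_filter.1 hg).2.2)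
      have h' : ((Ga t).card : ℝ) ≤ 4 * ((Tr.lay V t).card : ℝ) := by exact_mod_cast this
      exact h'
    · rw [← Finset.mul_sum, hsum]
  have bb : ((T.biUnion fun a => T.biUnion fun b => T.biUnion fun c => Gb a b c).card : ℝ) ≤
      26 * k ^ 2 * n := by
    refine (card3 T Gb (fun a b c => 24 * x b + 2 * x a) (fun a _ b _ c _ => ?_)).trans ?_
    · by_cases hB : Btw a b c
      · have := hMidD ι V G u s q D a b c (Gb a b c) hB (Finset.filter_subset _ _)
          (fun g hg => (Finset.mem_filter.1 hg).2.2)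
        have h' : ((Gb a b c).card : ℝ) ≤ 24 * ((Tr.lay V b).card : ℝ) +
          2 * ((Tr.lay V a).card : ℝ) := by exact_mod_cast this
        exact h'
      · have : Gb a b c = ∅ := by
          rw [Finset.eq_empty_iff_forall_notMem]
          intro g hg
          exact hB (Finset.mem_filter.1 hg).2.1
        rw [this, Finset.card_empty, Nat.cast_zero]
        have := hx0 a
        have := hx0 b
        positivity
    · rw [sum3', hsum]
      exact le_of_eq (by ring)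
  have bc : ((T.biUnion fun a => T.biUnion fun b => T.biUnion fun c => Gc a b c).card : ℝ) ≤
      3 * M * R * k ^ 2 * n := by
    refine (card3 T Gc (fun a b c => M * R * (x a + x b + x c)) (fun a _ b _ c _ => ?_)).trans ?_
    · by_cases hB : Btw a b c
      · have := hFlatD ι V G u s q D a b c (Gc a b c) hB (Finset.filter_subset _ _)
          (fun g hg => (Finset.mem_filter.1 hg).2.2)
        have h2 : ((Gc a b c).card : ℝ) ≤
          ((flats (AA V a b c) (BB V a b c) (CC V b)).card : ℝ) := by exact_mod_cast this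
        exact h2.trans (hF a b c hB)
      · have : Gc a b c = ∅ := by
          rw [Finset.eq_empty_iff_forall_notMem]
          intro g hg
          exact hB (Finset.mem_filter.1 hg).2.1
        rw [this, Finset.card_empty, Nat.cast_zero]
        have := hx0 a
        have := hx0 b
        have := hx0 c
        positivity
    · simp only [← Finset.mul_sum]
      rw [sum3, hsum]
      exact le_of_eq (by ring)
  have bd : ((T.biUnion fun a => T.biUnion fun b => T.biUnion fun c => T.biUnion fun d =>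
      Gd a b c d).card : ℝ) ≤ (72 * L * R + 6) * k ^ 3 * n := by
    refine (card3 T (fun a b c => T.biUnion fun d => Gd a b c d)
      (fun a b c => ∑ d ∈ T, (12 * L * R * ((x a + x b + x c) + (x a + x b + x d)) + 6 * x b))
      (fun a _ b _ c _ => card1 T _ _ (fun d _ => ?_))).trans ?_
    · by_cases hB : Btw a b c ∧ Btw a b d ∧ c ≠ d
      · have := hSumI ι V G u s q D a b c d (Gd a b c d) hB.1 hB.2.1 hB.2.2
          (Finset.filter_subset _ _) (fun g hg => (Finset.mem_filter.1 hg).2.2)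
        have h2 : ((Gd a b c d).card : ℝ) ≤ 12 * ((Wd V a b c : ℝ) + Wd V a b d) +
            6 * ((Tr.lay V b).card : ℝ) := by
          exact_mod_cast this
        change ((Gd a b c d).card : ℝ) ≤ 12 * ((Wd V a b c : ℝ) + Wd V a b d) + 6 * x b at h2
        have h3 := hW a b c hB.1
        have h4 := hW a b d hB.2.1
        refine h2.trans ?_
        linarith
      · have : Gd a b c d = ∅ := by
          rw [Finset.eq_empty_iff_forall_notMem]
          intro g hg
          exact hB (Finset.mem_filter.1 hg).2.1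
        rw [this, Finset.card_empty, Nat.cast_zero]
        have := hx0 a
        have := hx0 b
        have := hx0 c
        have := hx0 d
        positivity
    · rw [sum4, hsum]
      exact le_of_eq (by ring)
  have be : ((T.biUnion fun a => T.biUnion fun b => T.biUnion fun c => T.biUnion fun d =>
      T.biUnion fun e => Ge a b c d e).card : ℝ) ≤ (144 * L * R + 6) * k ^ 4 * n := by
    refine (card3 T (fun a b c => T.biUnion fun d => T.biUnion fun e => Ge a b c d e)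
      (fun a b c => ∑ d ∈ T, ∑ e ∈ T, (12 * L * R * ((x a + x c + x d) + (x a + x c + x e) +
        (x b + x c + x d) + (x b + x c + x e)) + 6 * x c))
      (fun a _ b _ c _ => card1 T _ _ (fun d _ => card1 T _ _ (fun e _ => ?_)))).trans ?_
    · by_cases hB : Btw a c d ∧ Btw a c e ∧ Btw b c d ∧ Btw b c e ∧ a ≠ b ∧ d ≠ e
      · have := hSumII ι V G u s q D a b c d e (Ge a b c d e) hB.1 hB.2.1 hB.2.2.1 hB.2.2.2.1
          hB.2.2.2.2.1 hB.2.2.2.2.2
          (Finset.filter_subset _ _) (fun g hg => (Finset.mem_filter.1 hg).2.2)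
        have h2 : ((Ge a b c d e).card : ℝ) ≤ 12 * ((Wd V a c d : ℝ) + Wd V a c e +
            Wd V b c d + Wd V b c e) + 6 * ((Tr.lay V c).card : ℝ) := by
          exact_mod_cast this
        change ((Ge a b c d e).card : ℝ) ≤ 12 * ((Wd V a c d : ℝ) + Wd V a c e +
            Wd V b c d + Wd V b c e) + 6 * x c at h2
        have h3 := hW a c d hB.1
        have h4 := hW a c e hB.2.1
        have h5 := hW b c d hB.2.2.1
        have h6 := hW b c e hB.2.2.2.1
        refine h2.trans ?_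
        linarith
      · have : Ge a b c d e = ∅ := by
          rw [Finset.eq_empty_iff_forall_notMem]
          intro g hg
          exact hB (Finset.mem_filter.1 hg).2.1
        rw [this, Finset.card_empty, Nat.cast_zero]
        have := hx0 a
        have := hx0 b
        have := hx0 c
        have := hx0 d
        have := hx0 e
        positivity
    · rw [sum5, hsum]
      exact le_of_eq (by ring)
  -- the sum
  have hc : (G.card : ℝ) ≤ G0.card + (T.biUnion Ga).card +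
      (T.biUnion fun a => T.biUnion fun b => T.biUnion fun c => Gb a b c).card +
      (T.biUnion fun a => T.biUnion fun b => T.biUnion fun c => Gc a b c).card +
      (T.biUnion fun a => T.biUnion fun b => T.biUnion fun c => T.biUnion fun d =>
        Gd a b c d).card +
      (T.biUnion fun a => T.biUnion fun b => T.biUnion fun c => T.biUnion fun d =>
        T.biUnion fun e => Ge a b c d e).card := by
    have h1 := Finset.card_le_card hcover
    have h2 := h1.trans (Finset.card_union_le _ _)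
    have h3 := h2.trans (Nat.add_le_add_right (Finset.card_union_le _ _) _)
    have h4 := h3.trans (Nat.add_le_add_right (Nat.add_le_add_right
      (Finset.card_union_le _ _) _) _)
    have h5 := h4.trans (Nat.add_le_add_right (Nat.add_le_add_right (Nat.add_le_add_right
      (Finset.card_union_le _ _) _) _) _)
    have h6 := h5.trans (Nat.add_le_add_right (Nat.add_le_add_right (Nat.add_le_add_right
      (Nat.add_le_add_right (Finset.card_union_le _ _) _) _) _) _)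
    exact_mod_cast h6
  have hpow : n ^ (3 / 2 : ℝ) = n * R := by
    rw [hR, Real.sqrt_eq_rpow, show (3 / 2 : ℝ) = 1 + 1 / 2 by norm_num,
      Real.rpow_add (by linarith), Real.rpow_one]
  have hR1 : 1 ≤ R := by
    rw [hR]
    exact Real.one_le_sqrt.2 hn1
  rw [hpow]
  have hk2 : (1 : ℝ) ≤ k ^ 2 := one_le_pow₀ hk1
  have hk3 : (1 : ℝ) ≤ k ^ 3 := one_le_pow₀ hk1
  have hk4 : (1 : ℝ) ≤ k ^ 4 := one_le_pow₀ hk1
  have k24 : k ^ 2 ≤ k ^ 4 := pow_le_pow_right₀ hk1 (by norm_num)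
  have k34 : k ^ 3 ≤ k ^ 4 := pow_le_pow_right₀ hk1 (by norm_num)
  have k14 : k ≤ k ^ 4 := le_self_pow₀ hk1 (by norm_num)
  have hnR : 1 ≤ n * R := one_le_mul_of_one_le_of_one_le hn1 hR1
  have hnR' : n ≤ n * R := le_mul_of_one_le_right (by linarith) hR1
  have e0 : k ≤ k ^ 4 * (n * R) := k14.trans (le_mul_of_one_le_right (by positivity) hnR)
  have ea : n ≤ k ^ 4 * (n * R) := hnR'.trans (le_mul_of_one_le_left (by positivity) hk4)
  have eb : k ^ 2 * n ≤ k ^ 4 * (n * R) := mul_le_mul k24 hnR' (by linarith) (by positivity)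
  have ec : k ^ 2 * (n * R) ≤ k ^ 4 * (n * R) := mul_le_mul_of_nonneg_right k24 (by linarith)
  have ed : k ^ 3 * (n * R) ≤ k ^ 4 * (n * R) := mul_le_mul_of_nonneg_right k34 (by linarith)
  have ed' : k ^ 3 * n ≤ k ^ 4 * (n * R) := mul_le_mul k34 hnR' (by linarith) (by positivity)
  have ee' : k ^ 4 * n ≤ k ^ 4 * (n * R) := mul_le_mul_of_nonneg_left hnR' (by positivity)
  have mc := mul_le_mul_of_nonneg_left ec (by linarith : 0 ≤ 3 * M)
  have md := mul_le_mul_of_nonneg_left ed (by linarith : 0 ≤ 72 * L)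
  nlinarith

end KPH
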