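import Pool.Agent.KPH.Stmts

/-!
# Vertices on `k` parallel hyperplanes: facets of type I

Facets with two vertices in one layer, the only vertex `v` in the next one, and one vertex in each of two
layers on the other side of `v`: they are counted by the event classes of two pairs of outer layers.
-/

set_option autoImplicit false

namespace KPH

open TPH

namespace MTypeI

/-- Three different facets do not have three different common vertices. -/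
theorem no_three {ι : Type} {V : Finset (E × ℝ)} {G : Finset ι} {u : ι → E} {s q : ι → ℝ}
    (D : Tr.Data V G u s q) {g₁ g₂ g₃ : ι} (h1 : g₁ ∈ G) (h2 : g₂ ∈ G) (h3 : g₃ ∈ G)
    (n12 : g₁ ≠ g₂) (n13 : g₁ ≠ g₃) (n23 : g₂ ≠ g₃) {x y z : E × ℝ} (hx : x ∈ V) (hy : y ∈ V)
    (hz : z ∈ V) (hxy : x ≠ y) (hxz : x ≠ z) (hyz : y ≠ z)
    (x1 : Tr.val (u g₁) (s g₁) x = q g₁) (x2 : Tr.val (u g₂) (s g₂) x = q g₂)
    (x3 : Tr.val (u g₃) (s g₃) x = q g₃)
    (y1 : Tr.val (u g₁) (s g₁) y = q g₁) (y2 : Tr.val (u g₂) (s g₂) y = q g₂)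
    (y3 : Tr.val (u g₃) (s g₃) y = q g₃)
    (z1 : Tr.val (u g₁) (s g₁) z = q g₁) (z2 : Tr.val (u g₂) (s g₂) z = q g₂)
    (z3 : Tr.val (u g₃) (s g₃) z = q g₃) : False := by
  classical
  have hsub : ({g₁, g₂, g₃} : Finset ι) ⊆ G := by
    intro g hg
    rw [Finset.mem_insert, Finset.mem_insert, Finset.mem_singleton] at hg
    rcases hg with rfl | rfl | rfl
    · exact h1
    · exact h2
    · exact h3
  have hc := D.two x hx y hy z hz hxy hxz hyz {g₁, g₂, g₃} hsub (by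
    intro g hg
    rw [Finset.mem_insert, Finset.mem_insert, Finset.mem_singleton] at hg
    rcases hg with rfl | rfl | rfl
    · exact ⟨x1, y1, z1⟩
    · exact ⟨x2, y2, z2⟩
    · exact ⟨x3, y3, z3⟩)
  rw [Finset.card_eq_three.2 ⟨g₁, g₂, g₃, n12, n13, n23, rfl⟩] at hc
  omega

/-- If the maximisers on the scaled layer `t` are the same for two facets, then the vertices of the first
facet in this layer are vertices of the second one. -/
theorem val_of_Mx {ι : Type} {V : Finset (E × ℝ)} {G : Finset ι} {u : ι → E} {s q : ι → ℝ}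
    (D : Tr.Data V G u s q) {g g' : ι} (hg : g ∈ G) (hg' : g' ∈ G) {t k : ℝ} (hk : 0 < k)
    (h0' : (Tr.zer V t (u g') (s g') (q g')).Nonempty)
    (he : Mx (Tr.img V t k) (u g) = Mx (Tr.img V t k) (u g')) {x : E × ℝ}
    (hx : x ∈ Tr.zer V t (u g) (s g) (q g)) : Tr.val (u g') (s g') x = q g' := by
  have hx' := Tr.mem_zer.1 hx
  have hl : x ∈ Tr.lay V t := Tr.mem_lay.2 ⟨hx'.1, hx'.2.1⟩
  have h1 : k • x.1 ∈ Mx (Tr.img V t k) (u g) :=
    (Tr.mem_Mx_img hk (D.nn g hg) ⟨x, hx⟩ hl).2 hx'.2.2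
  rw [he] at h1
  exact (Tr.mem_Mx_img hk (D.nn g' hg') h0' hl).1 h1

/-- Two different common maximisers on the scaled layer `t` of three different facets with a common
vertex `v` in another layer are impossible. -/
theorem no_edge {ι : Type} {V : Finset (E × ℝ)} {G : Finset ι} {u : ι → E} {s q : ι → ℝ}
    (D : Tr.Data V G u s q) {g₁ g₂ g₃ : ι} (h1 : g₁ ∈ G) (h2 : g₂ ∈ G) (h3 : g₃ ∈ G)
    (n12 : g₁ ≠ g₂) (n13 : g₁ ≠ g₃) (n23 : g₂ ≠ g₃) {t k : ℝ} (hk : 0 < k) {v : E × ℝ} (hv : v ∈ V)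
    (hvt : v.2 ≠ t) (v1 : Tr.val (u g₁) (s g₁) v = q g₁) (v2 : Tr.val (u g₂) (s g₂) v = q g₂)
    (v3 : Tr.val (u g₃) (s g₃) v = q g₃)
    (z1 : (Tr.zer V t (u g₁) (s g₁) (q g₁)).Nonempty) (z2 : (Tr.zer V t (u g₂) (s g₂) (q g₂)).Nonempty)
    (z3 : (Tr.zer V t (u g₃) (s g₃) (q g₃)).Nonempty) {e : Finset E} (he : e.card = 2)
    (e1 : e ⊆ Mx (Tr.img V t k) (u g₁)) (e2 : e ⊆ Mx (Tr.img V t k) (u g₂))
    (e3 : e ⊆ Mx (Tr.img V t k) (u g₃)) : False := by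
  classical
  obtain ⟨a, b, hab, rfl⟩ := Finset.card_eq_two.1 he
  have ha : a ∈ ({a, b} : Finset E) := by simp
  have hb : b ∈ ({a, b} : Finset E) := by simp
  obtain ⟨x, hx, rfl⟩ := Tr.mem_img.1 (Mx_subset _ _ (e1 ha))
  obtain ⟨y, hy, rfl⟩ := Tr.mem_img.1 (Mx_subset _ _ (e1 hb))
  have hx' := Tr.mem_lay.1 hx
  have hy' := Tr.mem_lay.1 hy
  refine no_three D h1 h2 h3 n12 n13 n23 hx'.1 hy'.1 hv ?_ ?_ ?_
    ((Tr.mem_Mx_img hk (D.nn g₁ h1) z1 hx).1 (e1 ha)) ((Tr.mem_Mx_img hk (D.nn g₂ h2) z2 hx).1 (e2 ha))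
    ((Tr.mem_Mx_img hk (D.nn g₃ h3) z3 hx).1 (e3 ha)) ((Tr.mem_Mx_img hk (D.nn g₁ h1) z1 hy).1 (e1 hb))
    ((Tr.mem_Mx_img hk (D.nn g₂ h2) z2 hy).1 (e2 hb)) ((Tr.mem_Mx_img hk (D.nn g₃ h3) z3 hy).1 (e3 hb))
    v1 v2 v3
  · rintro rfl; exact hab rfl
  · rintro rfl; exact hvt hx'.2
  · rintro rfl; exact hvt hy'.2

end MTypeI

/-- **StmtTypeI.** -/
theorem t_TypeI (hMulti : StmtMultiAll) (hDet : StmtDet) (hTie : StmtTieD) (hRay : StmtRayD) :
    StmtTypeI := by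
  classical
  intro ι V G u s q D tA tc tD tB v S hAD hAB hDB hv hS h
  rcases S.eq_empty_or_nonempty with hS0 | ⟨g0, hg0⟩
  · rw [hS0, Finset.card_empty]; exact Nat.zero_le _
  -- basic facts
  have zA : ∀ g ∈ S, (Tr.zer V tA (u g) (s g) (q g)).Nonempty := fun g hg => by
    rw [← Finset.card_pos, show (Tr.zer V tA (u g) (s g) (q g)).card = 2 from (h g hg).1]; norm_num
  have zc : ∀ g ∈ S, v ∈ Tr.zer V tc (u g) (s g) (q g) := fun g hg => by
    have := (h g hg).2.1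
    rw [show Tr.zer V tc (u g) (s g) (q g) = {v} from this]
    simp
  have zD : ∀ g ∈ S, (Tr.zer V tD (u g) (s g) (q g)).Nonempty := fun g hg => by
    rw [← Finset.card_pos, show (Tr.zer V tD (u g) (s g) (q g)).card = 1 from (h g hg).2.2.1]; norm_num
  have zB : ∀ g ∈ S, (Tr.zer V tB (u g) (s g) (q g)).Nonempty := fun g hg => by
    rw [← Finset.card_pos, show (Tr.zer V tB (u g) (s g) (q g)).card = 1 from (h g hg).2.2.2]; norm_num
  have hvt : v.2 = tc := (Tr.mem_zer.1 (zc g0 hg0)).2.1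
  have vv : ∀ g ∈ S, Tr.val (u g) (s g) v = q g := fun g hg => (Tr.mem_zer.1 (zc g hg)).2.2
  have kAD : 0 < 2 * wt tA tc tD := by have := hAD.wt_pos; linarith
  have kAB : 0 < 2 * wt tA tc tB := by have := hAB.wt_pos; linarith
  have kDA : 0 < 2 * wt tD tc tA := by have := hAD.symm.wt_pos; linarith
  have kBA : 0 < 2 * wt tB tc tA := by have := hAB.symm.wt_pos; linarith
  have hdet : ∀ g ∈ S, ∀ g' ∈ S, ∀ κ : ℝ, 0 < κ → u g' = κ • u g → g' = g := fun g hg g' hg' κ hκ he =>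
    hDet ι V G u s q D g (hS hg) g' (hS hg') tA tc κ hAD.ne.1 hκ he (zA g hg) ⟨v, zc g hg⟩
      (zA g' hg') ⟨v, zc g' hg'⟩
  have hinj : Set.InjOn u (S : Set ι) := by
    intro g hg g' hg' he
    exact hdet g' hg' g hg 1 one_pos (by rw [one_smul]; exact he)
  obtain ⟨r, s₀, hexp⟩ := D.exp v hv
  obtain ⟨hray1, hray2⟩ := hRay V v r s₀ hv hexp
  rw [hvt] at hray1 hray2
  have tAD := fun g (hg : g ∈ S) => hTie ι V G u s q D g (hS hg) tA tc tD v hAD (zc g hg) (zA g hg)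
    (zD g hg)
  have tAB := fun g (hg : g ∈ S) => hTie ι V G u s q D g (hS hg) tA tc tB v hAB (zc g hg) (zA g hg)
    (zB g hg)
  have hmain := hMulti 2 ![AA V tA tc tD, AA V tA tc tB] ![BB V tA tc tD, BB V tA tc tB] (CC V tc) v.1 r
    (S.image u)
    (by
      intro j
      fin_cases j
      · exact Tr.convPos_img kAD D.exp
      · exact Tr.convPos_img kAB D.exp)
    (by
      intro j
      fin_cases j
      · exact Tr.convPos_img kDA D.exp
      · exact Tr.convPos_img kBA D.exp)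
    (Tr.convPos_img one_pos D.exp)
    (by
      intro j
      fin_cases j
      · exact hray2 tA tD hAD
      · exact hray2 tA tB hAB)
    hray1
    (by
      intro w hw
      obtain ⟨g, hg, rfl⟩ := Finset.mem_image.1 hw
      refine ⟨(tAD g hg).1, (tAD g hg).2.2.1 (h g hg).2.1, ?_⟩
      intro j
      fin_cases j
      · exact (tAD g hg).2.1
      · exact (tAB g hg).2.1)
    (by
      intro w hw w' hw' κ hκ he
      obtain ⟨g, hg, rfl⟩ := Finset.mem_image.1 hw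
      obtain ⟨g', hg', rfl⟩ := Finset.mem_image.1 hw'
      rw [hdet g hg g' hg' κ hκ he])
    (by
      intro w₁ hw₁ w₂ hw₂ w₃ hw₃ n12 n13 n23
      obtain ⟨g₁, hg₁, rfl⟩ := Finset.mem_image.1 hw₁
      obtain ⟨g₂, hg₂, rfl⟩ := Finset.mem_image.1 hw₂
      obtain ⟨g₃, hg₃, rfl⟩ := Finset.mem_image.1 hw₃
      by_contra hcon
      push Not at hcon
      have m12 : g₁ ≠ g₂ := fun h => n12 (by rw [h])
      have m13 : g₁ ≠ g₃ := fun h => n13 (by rw [h])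
      have m23 : g₂ ≠ g₃ := fun h => n23 (by rw [h])
      have c0 := hcon 0
      have c1 := hcon 1
      have d0 := c0 (Or.inl (by
        show 2 ≤ (Mx (AA V tA tc tD) (u g₁)).card
        rw [(tAD g₁ hg₁).2.2.2.1]
        exact (h g₁ hg₁).1.ge))
      have d1 := c1 (Or.inl (by
        show 2 ≤ (Mx (AA V tA tc tB) (u g₁)).card
        rw [(tAB g₁ hg₁).2.2.2.1]
        exact (h g₁ hg₁).1.ge))
      obtain ⟨x, hx⟩ := zD g₁ hg₁
      obtain ⟨y, hy⟩ := zB g₁ hg₁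
      have hx' := Tr.mem_zer.1 hx
      have hy' := Tr.mem_zer.1 hy
      refine MTypeI.no_three D (hS hg₁) (hS hg₂) (hS hg₃) m12 m13 m23 hx'.1 hy'.1 hv ?_ ?_ ?_
        hx'.2.2 (MTypeI.val_of_Mx D (hS hg₁) (hS hg₂) kDA (zD g₂ hg₂) d0.2.1 hx)
        (MTypeI.val_of_Mx D (hS hg₁) (hS hg₃) kDA (zD g₃ hg₃) d0.2.2 hx)
        hy'.2.2 (MTypeI.val_of_Mx D (hS hg₁) (hS hg₂) kBA (zB g₂ hg₂) d1.2.1 hy)
        (MTypeI.val_of_Mx D (hS hg₁) (hS hg₃) kBA (zB g₃ hg₃) d1.2.2 hy)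
        (vv g₁ hg₁) (vv g₂ hg₂) (vv g₃ hg₃)
      · rintro rfl; exact hDB (hx'.2.1.symm.trans hy'.2.1)
      · rintro rfl; exact hAD.ne.2.1 (hvt.symm.trans hx'.2.1)
      · rintro rfl; exact hAB.ne.2.1 (hvt.symm.trans hy'.2.1))
    (by
      intro j w₁ hw₁ w₂ hw₂ w₃ hw₃ n12 n13 n23 e he e1 e2 e3
      obtain ⟨g₁, hg₁, rfl⟩ := Finset.mem_image.1 hw₁
      obtain ⟨g₂, hg₂, rfl⟩ := Finset.mem_image.1 hw₂
      obtain ⟨g₃, hg₃, rfl⟩ := Finset.mem_image.1 hw₃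
      have m12 : g₁ ≠ g₂ := fun h => n12 (by rw [h])
      have m13 : g₁ ≠ g₃ := fun h => n13 (by rw [h])
      have m23 : g₂ ≠ g₃ := fun h => n23 (by rw [h])
      have hvA : v.2 ≠ tA := by rw [hvt]; exact hAD.ne.1.symm
      fin_cases j
      · exact MTypeI.no_edge D (hS hg₁) (hS hg₂) (hS hg₃) m12 m13 m23 kAD hv hvA (vv g₁ hg₁) (vv g₂ hg₂)
          (vv g₃ hg₃) (zA g₁ hg₁) (zA g₂ hg₂) (zA g₃ hg₃) he e1 e2 e3
      · exact MTypeI.no_edge D (hS hg₁) (hS hg₂) (hS hg₃) m12 m13 m23 kAB hv hvA (vv g₁ hg₁) (vv g₂ hg₂)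
          (vv g₃ hg₃) (zA g₁ hg₁) (zA g₂ hg₂) (zA g₃ hg₃) he e1 e2 e3)
  rw [Finset.card_image_of_injOn hinj, Fin.sum_univ_two] at hmain
  exact hmain

end KPH
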