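import Pool.Agent.KPH.Stmts

/-!
# Vertices on `k` parallel hyperplanes: facets of type II

Facets with the only vertex `v` in one layer, and one vertex in each of two layers on each side of `v`:
they are counted by the event classes of four pairs of outer layers.
-/

set_option autoImplicit false

namespace KPH

open TPH

namespace MTypeII

/-- Three different facets do not have three different common vertices. -/
theorem no_three {ι : Type} {V : Finset (E × ℝ)} {G : Finset ι} {u : ι → E} {s q : ι → ℝ}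
    (D : Tr.Data V G u s q) {g₁ g₂ g₃ : ι} (h1 : g₁ ∈ G) (h2 : g₂ ∈ G) (h3 : g₃ ∈ G)
    (n12 : g₁ ≠ g₂) (n13 : g₁ ≠ g₃) (n23 : g₂ ≠ g₃) {x y z : E × ℝ} (hx : x ∈ V) (hy : y ∈ V)
    (hz : z ∈ V) (hxy : x ≠ y) (hxz : x ≠ z) (hyz : y ≠ z)
    (x1 : Tr.val (u g₁) (s g₁) x = q g₁) (x2 : Tr.val (u g₂) (s g₂) x = q g₂)
    (x3 : Tr.val (u g₃) (s g₃) x = q g₃)
    (y1 : Tr.val (u g₁) (s g₁) y = q g₁) (y2 : Tr.val (u g₂) (s g₂) y = q g₂)
    (y3 : Tr.val (u g₃) (s g₃) y = q g₃)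
    (z1 : Tr.val (u g₁) (s g₁) z = q g₁) (z2 : Tr.val (u g₂) (s g₂) z = q g₂)
    (z3 : Tr.val (u g₃) (s g₃) z = q g₃) : False := by
  classical
  have hsub : ({g₁, g₂, g₃} : Finset ι) ⊆ G := by
    intro g hg
    rw [Finset.mem_insert, Finset.mem_insert, Finset.mem_singleton] at hg
    rcases hg with rfl | rfl | rfl
    · exact h1
    · exact h2
    · exact h3
  have hc := D.two x hx y hy z hz hxy hxz hyz {g₁, g₂, g₃} hsub (by
    intro g hg
    rw [Finset.mem_insert, Finset.mem_insert, Finset.mem_singleton] at hg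
    rcases hg with rfl | rfl | rfl
    · exact ⟨x1, y1, z1⟩
    · exact ⟨x2, y2, z2⟩
    · exact ⟨x3, y3, z3⟩)
  rw [Finset.card_eq_three.2 ⟨g₁, g₂, g₃, n12, n13, n23, rfl⟩] at hc
  omega

/-- If the maximisers on the scaled layer `t` are the same for two facets, then the vertices of the first
facet in this layer are vertices of the second one. -/
theorem val_of_Mx {ι : Type} {V : Finset (E × ℝ)} {G : Finset ι} {u : ι → E} {s q : ι → ℝ}
    (D : Tr.Data V G u s q) {g g' : ι} (hg : g ∈ G) (hg' : g' ∈ G) {t k : ℝ} (hk : 0 < k)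
    (h0' : (Tr.zer V t (u g') (s g') (q g')).Nonempty)
    (he : Mx (Tr.img V t k) (u g) = Mx (Tr.img V t k) (u g')) {x : E × ℝ}
    (hx : x ∈ Tr.zer V t (u g) (s g) (q g)) : Tr.val (u g') (s g') x = q g' := by
  have hx' := Tr.mem_zer.1 hx
  have hl : x ∈ Tr.lay V t := Tr.mem_lay.2 ⟨hx'.1, hx'.2.1⟩
  have h1 : k • x.1 ∈ Mx (Tr.img V t k) (u g) :=
    (Tr.mem_Mx_img hk (D.nn g hg) ⟨x, hx⟩ hl).2 hx'.2.2
  rw [he] at h1
  exact (Tr.mem_Mx_img hk (D.nn g' hg') h0' hl).1 h1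

/-- If the maximisers on one of the scaled layers `t`, `t'` are constant on three facets, then the vertices
of the first facet in this layer are common. -/
theorem dich {ι : Type} {V : Finset (E × ℝ)} {G : Finset ι} {u : ι → E} {s q : ι → ℝ}
    (D : Tr.Data V G u s q) {g₁ g₂ g₃ : ι} (h1 : g₁ ∈ G) (h2 : g₂ ∈ G) (h3 : g₃ ∈ G)
    {t t' k k' : ℝ} (hk : 0 < k) (hk' : 0 < k')
    (z2 : (Tr.zer V t (u g₂) (s g₂) (q g₂)).Nonempty)
    (z3 : (Tr.zer V t (u g₃) (s g₃) (q g₃)).Nonempty)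
    (y2 : (Tr.zer V t' (u g₂) (s g₂) (q g₂)).Nonempty)
    (y3 : (Tr.zer V t' (u g₃) (s g₃) (q g₃)).Nonempty)
    (hcon : ¬ ((2 ≤ (Mx (Tr.img V t k) (u g₁)).card ∨
        Mx (Tr.img V t k) (u g₁) ≠ Mx (Tr.img V t k) (u g₂) ∨
        Mx (Tr.img V t k) (u g₁) ≠ Mx (Tr.img V t k) (u g₃)) ∧
      (2 ≤ (Mx (Tr.img V t' k') (u g₁)).card ∨
        Mx (Tr.img V t' k') (u g₁) ≠ Mx (Tr.img V t' k') (u g₂) ∨
        Mx (Tr.img V t' k') (u g₁) ≠ Mx (Tr.img V t' k') (u g₃)))) :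
    (∀ x ∈ Tr.zer V t (u g₁) (s g₁) (q g₁),
      Tr.val (u g₂) (s g₂) x = q g₂ ∧ Tr.val (u g₃) (s g₃) x = q g₃) ∨
    (∀ x ∈ Tr.zer V t' (u g₁) (s g₁) (q g₁),
      Tr.val (u g₂) (s g₂) x = q g₂ ∧ Tr.val (u g₃) (s g₃) x = q g₃) := by
  by_cases hA : Mx (Tr.img V t k) (u g₁) = Mx (Tr.img V t k) (u g₂) ∧
      Mx (Tr.img V t k) (u g₁) = Mx (Tr.img V t k) (u g₃)
  · exact Or.inl fun x hx => ⟨val_of_Mx D h1 h2 hk z2 hA.1 hx, val_of_Mx D h1 h3 hk z3 hA.2 hx⟩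
  · by_cases hB : Mx (Tr.img V t' k') (u g₁) = Mx (Tr.img V t' k') (u g₂) ∧
        Mx (Tr.img V t' k') (u g₁) = Mx (Tr.img V t' k') (u g₃)
    · exact Or.inr fun x hx => ⟨val_of_Mx D h1 h2 hk' y2 hB.1 hx, val_of_Mx D h1 h3 hk' y3 hB.2 hx⟩
    · exact absurd ⟨Or.inr (not_and_or.1 hA), Or.inr (not_and_or.1 hB)⟩ hcon

/-- A set with two elements is not contained in a set with one element. -/
theorem no_pair {e M : Finset E} (he : e.card = 2) (hM : M.card = 1) (hs : e ⊆ M) : False := by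
  have := Finset.card_le_card hs
  omega

end MTypeII

/-- **StmtTypeII.** -/
theorem t_TypeII (hMulti : StmtMultiAll) (hDet : StmtDet) (hTie : StmtTieD) (hRay : StmtRayD) :
    StmtTypeII := by
  classical
  intro ι V G u s q D t₁ t₂ tc t₄ t₅ v S h14 h15 h24 h25 n12' n45' hv hS h
  rcases S.eq_empty_or_nonempty with hS0 | ⟨g0, hg0⟩
  · rw [hS0, Finset.card_empty]; exact Nat.zero_le _
  -- basic facts
  have z1 : ∀ g ∈ S, (Tr.zer V t₁ (u g) (s g) (q g)).Nonempty := fun g hg => by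
    rw [← Finset.card_pos, show (Tr.zer V t₁ (u g) (s g) (q g)).card = 1 from (h g hg).1]; norm_num
  have z2 : ∀ g ∈ S, (Tr.zer V t₂ (u g) (s g) (q g)).Nonempty := fun g hg => by
    rw [← Finset.card_pos, show (Tr.zer V t₂ (u g) (s g) (q g)).card = 1 from (h g hg).2.1]; norm_num
  have zc : ∀ g ∈ S, v ∈ Tr.zer V tc (u g) (s g) (q g) := fun g hg => by
    have := (h g hg).2.2.1
    rw [show Tr.zer V tc (u g) (s g) (q g) = {v} from this]
    simp
  have z4 : ∀ g ∈ S, (Tr.zer V t₄ (u g) (s g) (q g)).Nonempty := fun g hg => by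
    rw [← Finset.card_pos, show (Tr.zer V t₄ (u g) (s g) (q g)).card = 1 from (h g hg).2.2.2.1]
    norm_num
  have z5 : ∀ g ∈ S, (Tr.zer V t₅ (u g) (s g) (q g)).Nonempty := fun g hg => by
    rw [← Finset.card_pos, show (Tr.zer V t₅ (u g) (s g) (q g)).card = 1 from (h g hg).2.2.2.2]
    norm_num
  have hvt : v.2 = tc := (Tr.mem_zer.1 (zc g0 hg0)).2.1
  have vv : ∀ g ∈ S, Tr.val (u g) (s g) v = q g := fun g hg => (Tr.mem_zer.1 (zc g hg)).2.2
  have k14 : 0 < 2 * wt t₁ tc t₄ := by have := h14.wt_pos; linarith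
  have k15 : 0 < 2 * wt t₁ tc t₅ := by have := h15.wt_pos; linarith
  have k24 : 0 < 2 * wt t₂ tc t₄ := by have := h24.wt_pos; linarith
  have k25 : 0 < 2 * wt t₂ tc t₅ := by have := h25.wt_pos; linarith
  have k41 : 0 < 2 * wt t₄ tc t₁ := by have := h14.symm.wt_pos; linarith
  have k51 : 0 < 2 * wt t₅ tc t₁ := by have := h15.symm.wt_pos; linarith
  have k42 : 0 < 2 * wt t₄ tc t₂ := by have := h24.symm.wt_pos; linarith
  have k52 : 0 < 2 * wt t₅ tc t₂ := by have := h25.symm.wt_pos; linarith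
  have hdet : ∀ g ∈ S, ∀ g' ∈ S, ∀ κ : ℝ, 0 < κ → u g' = κ • u g → g' = g := fun g hg g' hg' κ hκ he =>
    hDet ι V G u s q D g (hS hg) g' (hS hg') t₁ tc κ h14.ne.1 hκ he (z1 g hg) ⟨v, zc g hg⟩
      (z1 g' hg') ⟨v, zc g' hg'⟩
  have hinj : Set.InjOn u (S : Set ι) := by
    intro g hg g' hg' he
    exact hdet g' hg' g hg 1 one_pos (by rw [one_smul]; exact he)
  obtain ⟨r, s₀, hexp⟩ := D.exp v hv
  obtain ⟨hray1, hray2⟩ := hRay V v r s₀ hv hexp
  rw [hvt] at hray1 hray2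
  have t14 := fun g (hg : g ∈ S) => hTie ι V G u s q D g (hS hg) t₁ tc t₄ v h14 (zc g hg) (z1 g hg)
    (z4 g hg)
  have t15 := fun g (hg : g ∈ S) => hTie ι V G u s q D g (hS hg) t₁ tc t₅ v h15 (zc g hg) (z1 g hg)
    (z5 g hg)
  have t24 := fun g (hg : g ∈ S) => hTie ι V G u s q D g (hS hg) t₂ tc t₄ v h24 (zc g hg) (z2 g hg)
    (z4 g hg)
  have t25 := fun g (hg : g ∈ S) => hTie ι V G u s q D g (hS hg) t₂ tc t₅ v h25 (zc g hg) (z2 g hg)
    (z5 g hg)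
  have hmain := hMulti 4 ![AA V t₁ tc t₄, AA V t₁ tc t₅, AA V t₂ tc t₄, AA V t₂ tc t₅]
    ![BB V t₁ tc t₄, BB V t₁ tc t₅, BB V t₂ tc t₄, BB V t₂ tc t₅] (CC V tc) v.1 r
    (S.image u)
    (by
      intro j
      fin_cases j
      · exact Tr.convPos_img k14 D.exp
      · exact Tr.convPos_img k15 D.exp
      · exact Tr.convPos_img k24 D.exp
      · exact Tr.convPos_img k25 D.exp)
    (by
      intro j
      fin_cases j
      · exact Tr.convPos_img k41 D.exp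
      · exact Tr.convPos_img k51 D.exp
      · exact Tr.convPos_img k42 D.exp
      · exact Tr.convPos_img k52 D.exp)
    (Tr.convPos_img one_pos D.exp)
    (by
      intro j
      fin_cases j
      · exact hray2 t₁ t₄ h14
      · exact hray2 t₁ t₅ h15
      · exact hray2 t₂ t₄ h24
      · exact hray2 t₂ t₅ h25)
    hray1
    (by
      intro w hw
      obtain ⟨g, hg, rfl⟩ := Finset.mem_image.1 hw
      refine ⟨(t14 g hg).1, (t14 g hg).2.2.1 (h g hg).2.2.1, ?_⟩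
      intro j
      fin_cases j
      · exact (t14 g hg).2.1
      · exact (t15 g hg).2.1
      · exact (t24 g hg).2.1
      · exact (t25 g hg).2.1)
    (by
      intro w hw w' hw' κ hκ he
      obtain ⟨g, hg, rfl⟩ := Finset.mem_image.1 hw
      obtain ⟨g', hg', rfl⟩ := Finset.mem_image.1 hw'
      rw [hdet g hg g' hg' κ hκ he])
    (by
      intro w₁ hw₁ w₂ hw₂ w₃ hw₃ n12 n13 n23
      obtain ⟨g₁, hg₁, rfl⟩ := Finset.mem_image.1 hw₁
      obtain ⟨g₂, hg₂, rfl⟩ := Finset.mem_image.1 hw₂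
      obtain ⟨g₃, hg₃, rfl⟩ := Finset.mem_image.1 hw₃
      by_contra hcon
      have hcon' := not_exists.1 hcon
      have m12 : g₁ ≠ g₂ := fun h => n12 (by rw [h])
      have m13 : g₁ ≠ g₃ := fun h => n13 (by rw [h])
      have m23 : g₂ ≠ g₃ := fun h => n23 (by rw [h])
      have d0 := MTypeII.dich D (hS hg₁) (hS hg₂) (hS hg₃) k14 k41 (z1 g₂ hg₂) (z1 g₃ hg₃)
        (z4 g₂ hg₂) (z4 g₃ hg₃) (hcon' 0)
      have d1 := MTypeII.dich D (hS hg₁) (hS hg₂) (hS hg₃) k15 k51 (z1 g₂ hg₂) (z1 g₃ hg₃)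
        (z5 g₂ hg₂) (z5 g₃ hg₃) (hcon' 1)
      have d2 := MTypeII.dich D (hS hg₁) (hS hg₂) (hS hg₃) k24 k42 (z2 g₂ hg₂) (z2 g₃ hg₃)
        (z4 g₂ hg₂) (z4 g₃ hg₃) (hcon' 2)
      have d3 := MTypeII.dich D (hS hg₁) (hS hg₂) (hS hg₃) k25 k52 (z2 g₂ hg₂) (z2 g₃ hg₃)
        (z5 g₂ hg₂) (z5 g₃ hg₃) (hcon' 3)
      have key : ∀ t t' : ℝ, t ≠ t' → tc ≠ t → tc ≠ t' →
          (Tr.zer V t (u g₁) (s g₁) (q g₁)).Nonempty → (Tr.zer V t' (u g₁) (s g₁) (q g₁)).Nonempty →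
          (∀ x ∈ Tr.zer V t (u g₁) (s g₁) (q g₁),
            Tr.val (u g₂) (s g₂) x = q g₂ ∧ Tr.val (u g₃) (s g₃) x = q g₃) →
          (∀ x ∈ Tr.zer V t' (u g₁) (s g₁) (q g₁),
            Tr.val (u g₂) (s g₂) x = q g₂ ∧ Tr.val (u g₃) (s g₃) x = q g₃) → False := by
        intro t t' htt ht ht' hz hz' c c'
        obtain ⟨x, hx⟩ := hz
        obtain ⟨y, hy⟩ := hz'
        have hx' := Tr.mem_zer.1 hx
        have hy' := Tr.mem_zer.1 hy
        refine MTypeII.no_three D (hS hg₁) (hS hg₂) (hS hg₃) m12 m13 m23 hx'.1 hy'.1 hv ?_ ?_ ?_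
          hx'.2.2 (c x hx).1 (c x hx).2 hy'.2.2 (c' y hy).1 (c' y hy).2
          (vv g₁ hg₁) (vv g₂ hg₂) (vv g₃ hg₃)
        · rintro rfl; exact htt (hx'.2.1.symm.trans hy'.2.1)
        · rintro rfl; exact ht (hvt.symm.trans hx'.2.1)
        · rintro rfl; exact ht' (hvt.symm.trans hy'.2.1)
      have K12 := key t₁ t₂ n12' h14.ne.1.symm h24.ne.1.symm (z1 g₁ hg₁) (z2 g₁ hg₁)
      have K45 := key t₄ t₅ n45' h14.ne.2.1 h15.ne.2.1 (z4 g₁ hg₁) (z5 g₁ hg₁)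
      rcases d0 with a | b
      · rcases d2 with a' | b
        · exact K12 a a'
        · rcases d3 with a' | b'
          · exact K12 a a'
          · exact K45 b b'
      · rcases d1 with a | b'
        · rcases d3 with a' | b'
          · exact K12 a a'
          · exact K45 b b'
        · exact K45 b b')
    (by
      intro j w₁ hw₁ w₂ hw₂ w₃ hw₃ n12 n13 n23 e he e1 e2 e3
      obtain ⟨g₁, hg₁, rfl⟩ := Finset.mem_image.1 hw₁
      fin_cases j
      · exact MTypeII.no_pair he ((t14 g₁ hg₁).2.2.2.1.trans (h g₁ hg₁).1) e1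
      · exact MTypeII.no_pair he ((t15 g₁ hg₁).2.2.2.1.trans (h g₁ hg₁).1) e1
      · exact MTypeII.no_pair he ((t24 g₁ hg₁).2.2.2.1.trans (h g₁ hg₁).2.1) e1
      · exact MTypeII.no_pair he ((t25 g₁ hg₁).2.2.2.1.trans (h g₁ hg₁).2.1) e1)
  rw [Finset.card_image_of_injOn hinj, Fin.sum_univ_four] at hmain
  exact hmain

end KPH
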