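import Pool.Agent.KPH.Stmts

/-!
# Vertices on `k` parallel hyperplanes: the total number of event classes
-/

set_option autoImplicit false

namespace KPH

open TPH

namespace MWd

/-- A sum over the middle layer. -/
theorem sum_img (V : Finset (E × ℝ)) (t : ℝ) (f : E → ℕ) :
    ∑ c ∈ Tr.img V t 1, f c = ∑ v ∈ Tr.lay V t, f v.1 := by
  classical
  unfold Tr.img
  rw [Finset.sum_image (Tr.injOn (V := V) (t := t) one_pos)]
  exact Finset.sum_congr rfl fun v _ => by rw [one_smul]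

end MWd

open MWd in
theorem t_Wd (hEvSum : StmtEvSum) (hRay : StmtRayD) : StmtWd := by
  obtain ⟨K, hK⟩ := hEvSum
  refine ⟨K, fun V t₁ t₂ t₃ hb hexp => ?_⟩
  have hw1 : 0 < 2 * wt t₁ t₂ t₃ := by have := hb.wt_pos; positivity
  have hw2 : 0 < 2 * wt t₃ t₂ t₁ := by have := hb.symm.wt_pos; positivity
  have hA : ConvPos (AA V t₁ t₂ t₃) := Tr.convPos_img hw1 hexp
  have hB : ConvPos (BB V t₁ t₂ t₃) := Tr.convPos_img hw2 hexp
  have hC : ConvPos (CC V t₂) := Tr.convPos_img one_pos hexp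
  have hne : ∀ c ∈ CC V t₂, ∃ r, InR (AA V t₁ t₂ t₃) (BB V t₁ t₂ t₃) c r := by
    intro c hc
    obtain ⟨v, hv, rfl⟩ := Tr.mem_img.1 hc
    have hv' := Tr.mem_lay.1 hv
    obtain ⟨r, s₀, h⟩ := hexp v hv'.1
    have h2 := (hRay V v r s₀ hv'.1 h).2 t₁ t₃
    rw [hv'.2] at h2
    refine ⟨r, ?_⟩
    rw [one_smul]
    exact h2 hb
  have h := hK (AA V t₁ t₂ t₃) (BB V t₁ t₂ t₃) (CC V t₂) hA hB hC hne
  have hsum : ∑ c ∈ CC V t₂, evc (AA V t₁ t₂ t₃) (BB V t₁ t₂ t₃) (CC V t₂) c = Wd V t₁ t₂ t₃ :=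
    sum_img V t₂ (evc (AA V t₁ t₂ t₃) (BB V t₁ t₂ t₃) (CC V t₂))
  have c1 : (AA V t₁ t₂ t₃).card = (Tr.lay V t₁).card := Tr.card_img hw1
  have c2 : (BB V t₁ t₂ t₃).card = (Tr.lay V t₃).card := Tr.card_img hw2
  have c3 : (CC V t₂).card = (Tr.lay V t₂).card := Tr.card_img one_pos
  rw [hsum, c1, c2, c3] at h
  have e : (Tr.lay V t₁).card + (Tr.lay V t₂).card + (Tr.lay V t₃).card =
      (Tr.lay V t₁).card + (Tr.lay V t₃).card + (Tr.lay V t₂).card := by ring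
  rw [e]
  exact h

end KPH
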