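import Pool.Agent.KPH.Stmts

/-!
# Facets parallel to the layers
-/

set_option autoImplicit false

namespace KPH

open TPH

namespace MZeroD

theorem val_zero {u : E} (hu : u = 0) (s : ℝ) (v : E × ℝ) : Tr.val u s v = s * v.2 := by
  rw [Tr.val, hu]
  simp [ip]

end MZeroD

theorem t_ZeroD : StmtZeroD := by
  classical
  intro ι V G u s q D T S hT hS h0
  refine Finset.card_le_card_of_injOn (fun g => q g / s g) ?_ ?_
  · intro g hg
    have hg' : g ∈ S := hg
    obtain ⟨Z, hZ, hZ'⟩ := D.five g (hS hg')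
    obtain ⟨v, hv⟩ := Finset.card_pos.1 (by omega : 0 < Z.card)
    obtain ⟨hvV, hvq⟩ := hZ' v hv
    have hs : s g ≠ 0 := D.nz g (hS hg') (h0 g hg')
    rw [MZeroD.val_zero (h0 g hg')] at hvq
    have h1 : v.2 = q g / s g := by
      rw [← hvq]; field_simp
    show q g / s g ∈ (T : Set ℝ)
    rw [← h1]
    exact hT v hvV
  · intro g hg g' hg' he
    have hgS : g ∈ S := hg
    have hgS' : g' ∈ S := hg'
    have hs : s g ≠ 0 := D.nz g (hS hgS) (h0 g hgS)
    have hs' : s g' ≠ 0 := D.nz g' (hS hgS') (h0 g' hgS')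
    have he' : q g / s g = q g' / s g' := he
    refine D.inj g (hS hgS) g' (hS hgS') ?_
    intro v _ hvq
    rw [MZeroD.val_zero (h0 g hgS)] at hvq
    rw [MZeroD.val_zero (h0 g' hgS')]
    have h1 : v.2 = q g / s g := by
      rw [← hvq]; field_simp
    rw [h1, he']
    field_simp

end KPH
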