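import Pool.Agent.TPH.Closed
import Pool.Agent.KPH.Final
import Pool.Agent.KPH.Class
import Pool.Agent.KPH.Det
import Pool.Agent.KPH.FlatD
import Pool.Agent.KPH.MidD
import Pool.Agent.KPH.NDg
import Pool.Agent.KPH.RayD
import Pool.Agent.KPH.SumI
import Pool.Agent.KPH.SumII
import Pool.Agent.KPH.TieD
import Pool.Agent.KPH.TotalD
import Pool.Agent.KPH.TypeI
import Pool.Agent.KPH.TypeII
import Pool.Agent.KPH.Wd
import Pool.Agent.KPH.ZeroD
import Pool.Agent.TPH.AD1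
import Pool.Agent.TPH.AD2
import Pool.Agent.TPH.AD3
import Pool.Agent.TPH.Alpha
import Pool.Agent.TPH.AltBadAB
import Pool.Agent.TPH.AltBasic
import Pool.Agent.TPH.AltBound
import Pool.Agent.TPH.AltCrossTri
import Pool.Agent.TPH.AltDet
import Pool.Agent.TPH.AltDrop
import Pool.Agent.TPH.AltKey
import Pool.Agent.TPH.AltKeyI
import Pool.Agent.TPH.AltKeyII
import Pool.Agent.TPH.AltMDex
import Pool.Agent.TPH.AltMain
import Pool.Agent.TPH.AltMult
import Pool.Agent.TPH.AltNe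
import Pool.Agent.TPH.AltOrder
import Pool.Agent.TPH.AltOut
import Pool.Agent.TPH.AltOutMult
import Pool.Agent.TPH.AltOutPair
import Pool.Agent.TPH.AltPer
import Pool.Agent.TPH.AltSide
import Pool.Agent.TPH.AltSigns
import Pool.Agent.TPH.AltSmall
import Pool.Agent.TPH.AltThree
import Pool.Agent.TPH.Ang
import Pool.Agent.TPH.Arc
import Pool.Agent.TPH.EvSum
import Pool.Agent.TPH.Event
import Pool.Agent.TPH.HLem
import Pool.Agent.TPH.Multi
import Pool.Agent.TPH.MultiAll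
import Pool.Agent.TPH.PosBasic
import Pool.Agent.TPH.PosExit
import Pool.Agent.TPH.PosFirstExit
import Pool.Agent.TPH.PosPath2
import Pool.Agent.TPH.PosTangent
import Pool.Agent.TPH.TPath
import Pool.Agent.TPH.TangPairs
import Pool.Agent.TPH.TangentUniq
import Pool.Agent.TPH.TieBasic
import Pool.Agent.TPH.TieMid
import Pool.Agent.TPH.Triples

/-!
# Vertices on `k` parallel hyperplanes: all statements closed
-/

set_option autoImplicit false

open TPH

namespace KPH.Closed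

theorem c_t_AltBasic : StmtAltBasic := TPH.t_AltBasic
theorem c_t_PosBasic : StmtPosBasic := TPH.t_PosBasic
theorem c_t_AltDet : StmtAltDet := TPH.t_AltDet c_t_AltBasic
theorem c_t_AltPer : StmtAltPer := TPH.t_AltPer c_t_PosBasic c_t_AltBasic c_t_AltDet
theorem c_t_AD1 : StmtAD1 := TPH.t_AD1 c_t_PosBasic c_t_AltBasic c_t_AltPer
theorem c_t_PosFirstExit : StmtPosFirstExit := TPH.t_PosFirstExit c_t_PosBasic
theorem c_t_PosPath2 : StmtPosPath2 := TPH.t_PosPath2 c_t_PosBasic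
theorem c_t_AD2 : StmtAD2 := TPH.t_AD2 c_t_PosBasic c_t_AltBasic c_t_AltDet c_t_PosFirstExit c_t_PosPath2
theorem c_t_PosTangent : StmtPosTangent := TPH.t_PosTangent c_t_PosBasic
theorem c_t_TangentUniq : StmtTangentUniq := TPH.t_TangentUniq c_t_PosBasic
theorem c_t_AD3 : StmtAD3 := TPH.t_AD3 c_t_PosBasic c_t_AltBasic c_t_AltPer c_t_PosTangent c_t_TangentUniq
theorem c_t_PosExit : StmtPosExit := TPH.t_PosExit c_t_PosBasic
theorem c_t_AltDrop : StmtAltDrop := TPH.t_AltDrop c_t_AltBasic c_t_AD1 c_t_AD2 c_t_AD3 c_t_PosExit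
theorem c_t_AltSide : StmtAltSide := TPH.t_AltSide
theorem c_t_AltMult : StmtAltMult := TPH.t_AltMult c_t_AltBasic c_t_AltDet c_t_PosFirstExit
theorem c_t_AltSigns : StmtAltSigns := TPH.t_AltSigns c_t_AltBasic
theorem c_t_Arc : StmtArc := TPH.t_Arc
theorem c_t_AltOrder : StmtAltOrder := TPH.t_AltOrder c_t_AltBasic c_t_AltDet c_t_AltSide c_t_AltSigns c_t_Arc
theorem c_t_AltMDex : StmtAltMDex := TPH.t_AltMDex c_t_AltBasic c_t_AltDet c_t_AltSigns c_t_Arc c_t_AltOrder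
theorem c_t_AltBadAB : StmtAltBadAB := TPH.t_AltBadAB
theorem c_t_Alpha : StmtAlpha := TPH.t_Alpha
theorem c_t_AltKeyI : StmtAltKeyI := TPH.t_AltKeyI c_t_AltBasic c_t_Alpha c_t_AltSide c_t_AltSigns c_t_Arc
theorem c_t_AltKeyII : StmtAltKeyII := TPH.t_AltKeyII c_t_AltBasic c_t_AltSide c_t_AltSigns c_t_Arc
theorem c_t_AltKey : StmtAltKey := TPH.t_AltKey c_t_AltBasic c_t_AltSigns c_t_AltKeyI c_t_AltKeyII
theorem c_t_AltThree : StmtAltThree := TPH.t_AltThree c_t_Arc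
theorem c_t_AltCrossTri : StmtAltCrossTri := TPH.t_AltCrossTri c_t_AltSigns c_t_AltKey c_t_AltThree
theorem c_t_AltMain : StmtAltMain := TPH.t_AltMain c_t_AltBasic c_t_AltSide c_t_AltMult c_t_AltMDex c_t_AltBadAB c_t_AltCrossTri
theorem c_t_AltNe : StmtAltNe := TPH.t_AltNe c_t_AltBasic c_t_AltSigns
theorem c_t_AltOutPair : StmtAltOutPair := TPH.t_AltOutPair c_t_AltBasic c_t_AltSide c_t_AltSigns
theorem c_t_AltOutMult : StmtAltOutMult := TPH.t_AltOutMult c_t_AltBasic c_t_AltDet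
theorem c_t_AltOut : StmtAltOut := TPH.t_AltOut c_t_AltBasic c_t_AltDet c_t_AltSigns c_t_AltNe c_t_AltSide c_t_AltOutPair c_t_AltOutMult
theorem c_t_AltSmall : StmtAltSmall := TPH.t_AltSmall c_t_AltBasic c_t_AltPer
theorem c_t_AltBound : StmtAltBound := TPH.t_AltBound c_t_AltDrop c_t_AltMain c_t_AltOut c_t_AltSmall
theorem c_t_TangPairs : StmtTangPairs := TPH.t_TangPairs c_t_PosBasic c_t_PosTangent c_t_TangentUniq
theorem c_t_EvSum : StmtEvSum := TPH.t_EvSum c_t_AltBound c_t_TangPairs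
theorem c_t_RayD : StmtRayD := KPH.t_RayD
theorem c_t_Wd : StmtWd := KPH.t_Wd c_t_EvSum c_t_RayD
theorem c_t_TieBasic : StmtTieBasic := TPH.t_TieBasic
theorem c_t_TPath : StmtTPath := TPH.t_TPath c_t_TieBasic
theorem c_t_TieMid : StmtTieMid := TPH.t_TieMid c_t_TieBasic c_t_TPath
theorem c_t_Event : StmtEvent := TPH.t_Event c_t_TieBasic c_t_TPath
theorem c_t_HLem : StmtHLem := TPH.t_HLem c_t_TieBasic
theorem c_t_Ang : StmtAng := TPH.t_Ang
theorem c_t_Triples : StmtTriples := TPH.t_Triples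
theorem c_t_Multi : StmtMulti := TPH.t_Multi c_t_AltBasic c_t_TieBasic c_t_TieMid c_t_Event c_t_HLem c_t_Ang c_t_Triples
theorem c_t_MultiAll : StmtMultiAll := TPH.t_MultiAll c_t_TieBasic c_t_Multi
theorem c_t_Det : StmtDet := KPH.t_Det
theorem c_t_TieD : StmtTieD := KPH.t_TieD
theorem c_t_TypeI : StmtTypeI := KPH.t_TypeI c_t_MultiAll c_t_Det c_t_TieD c_t_RayD
theorem c_t_SumI : StmtSumI := KPH.t_SumI c_t_TypeI
theorem c_t_TypeII : StmtTypeII := KPH.t_TypeII c_t_MultiAll c_t_Det c_t_TieD c_t_RayD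
theorem c_t_SumII : StmtSumII := KPH.t_SumII c_t_TypeII
theorem c_t_FlatD : StmtFlatD := KPH.t_FlatD
theorem c_t_NDg : StmtNDg := KPH.t_NDg
theorem c_t_MidD : StmtMidD := KPH.t_MidD
theorem c_t_ZeroD : StmtZeroD := KPH.t_ZeroD
theorem c_t_Class : StmtClass := KPH.t_Class
theorem c_t_TotalD : StmtTotalD := KPH.t_TotalD c_t_Wd c_t_SumI c_t_SumII c_t_FlatD c_t_NDg c_t_MidD c_t_ZeroD c_t_Class

/-- The bound for facet data. -/
theorem total : StmtTotalD := c_t_TotalD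

end KPH.Closed
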