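import Pool.Agent.TPH.St7
import Pool.Agent.TPH.TrAb

/-!
# Vertices on `k` parallel hyperplanes: definitions

The vertices `V` are points of `E × ℝ`, the second coordinate is the height; `TPH.Tr.Data` are the facet
data of a polytope, `TPH.Tr.lay V t` is the layer of height `t`, `TPH.Tr.zer V t (u g) (s g) (q g)` is the set
of the vertices of the layer `t` in the facet `g` (see `Pool/Agent/TPH/TrA.lean`, `TrAb.lean`).
-/

set_option autoImplicit false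

namespace KPH

open TPH

/-- `t₂` is strictly between `t₁` and `t₃` (in either order). -/
def Btw (t₁ t₂ t₃ : ℝ) : Prop := (t₁ < t₂ ∧ t₂ < t₃) ∨ (t₃ < t₂ ∧ t₂ < t₁)

/-- The weight of `t₁` in the representation of `t₂` as a convex combination of `t₁` and `t₃`. -/
noncomputable def wt (t₁ t₂ t₃ : ℝ) : ℝ := (t₃ - t₂) / (t₃ - t₁)

/-- The layer `t₁`, scaled, as first outer layer for `t₂` between `t₁` and `t₃`. -/
noncomputable def AA (V : Finset (E × ℝ)) (t₁ t₂ t₃ : ℝ) : Finset E :=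
  Tr.img V t₁ (2 * wt t₁ t₂ t₃)

/-- The layer `t₃`, scaled, as second outer layer for `t₂` between `t₁` and `t₃`. -/
noncomputable def BB (V : Finset (E × ℝ)) (t₁ t₂ t₃ : ℝ) : Finset E :=
  Tr.img V t₃ (2 * wt t₃ t₂ t₁)

/-- The layer `t₂` as middle layer. -/
noncomputable def CC (V : Finset (E × ℝ)) (t₂ : ℝ) : Finset E := Tr.img V t₂ 1

/-- The number of event classes at the vertex `v` of the layer `t₂` for the outer layers `t₁`, `t₃`. -/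
noncomputable def evd (V : Finset (E × ℝ)) (t₁ t₂ t₃ : ℝ) (v : E × ℝ) : ℕ :=
  evc (AA V t₁ t₂ t₃) (BB V t₁ t₂ t₃) (CC V t₂) v.1

/-- The total number of event classes for three layers. -/
noncomputable def Wd (V : Finset (E × ℝ)) (t₁ t₂ t₃ : ℝ) : ℕ :=
  ∑ v ∈ Tr.lay V t₂, evd V t₁ t₂ t₃ v

/-- The vertices of the layer `t` in the facet with functional `(u,s)` and maximal value `q`. -/
noncomputable abbrev Zr (V : Finset (E × ℝ)) (u : E) (s q t : ℝ) : Finset (E × ℝ) := Tr.zer V t u s q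

/-- The facet `(u,s,q)` is determined by its vertices in the layers `t₁`, `t₂`, `t₃`. -/
def NDg (V : Finset (E × ℝ)) (u : E) (s q t₁ t₂ t₃ : ℝ) : Prop :=
  ∀ (v : E) (s' q' : ℝ), (∀ x : E × ℝ, (x ∈ Zr V u s q t₁ ∨ x ∈ Zr V u s q t₂ ∨
    x ∈ Zr V u s q t₃) → Tr.val v s' x = q') → ∃ κ : ℝ, v = κ • u

/-! ### Weights -/

variable {t₁ t₂ t₃ : ℝ}

theorem Btw.symm (h : Btw t₁ t₂ t₃) : Btw t₃ t₂ t₁ := Or.symm h

theorem Btw.ne (h : Btw t₁ t₂ t₃) : t₁ ≠ t₂ ∧ t₂ ≠ t₃ ∧ t₁ ≠ t₃ := by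
  rcases h with ⟨h1, h2⟩ | ⟨h1, h2⟩
  · exact ⟨h1.ne, h2.ne, (h1.trans h2).ne⟩
  · exact ⟨h2.ne', h1.ne', (h1.trans h2).ne'⟩

theorem Btw.wt_pos (h : Btw t₁ t₂ t₃) : 0 < wt t₁ t₂ t₃ := by
  rcases h with ⟨h1, h2⟩ | ⟨h1, h2⟩
  · exact div_pos (by linarith) (by linarith)
  · exact div_pos_of_neg_of_neg (by linarith) (by linarith)

theorem Btw.wt_add (h : Btw t₁ t₂ t₃) : wt t₁ t₂ t₃ + wt t₃ t₂ t₁ = 1 := by
  have h1 : t₃ - t₁ ≠ 0 := sub_ne_zero.2 h.ne.2.2.symm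
  have h2 : t₁ - t₃ ≠ 0 := sub_ne_zero.2 h.ne.2.2
  rw [wt, wt]
  field_simp
  ring

theorem Btw.wt_eq (h : Btw t₁ t₂ t₃) : wt t₁ t₂ t₃ * t₁ + wt t₃ t₂ t₁ * t₃ = t₂ := by
  have h1 : t₃ - t₁ ≠ 0 := sub_ne_zero.2 h.ne.2.2.symm
  have h2 : t₁ - t₃ ≠ 0 := sub_ne_zero.2 h.ne.2.2
  rw [wt, wt]
  field_simp
  ring

end KPH
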