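import Pool.Agent.KPH.Defs

/-!
# Vertices on `k` parallel hyperplanes: statements

The proofs use the lemmas of `Pool/Agent/TPH/TrA.lean` and `TrAb.lean` (namespace `TPH.Tr`): `mem_lay`,
`mem_zer`, `mem_img`, `injOn`, `card_img`, `Mx_img`, `card_Mx`, `mem_Mx_img`, `convPos_img`, `ip_of_mem`,
`count_three`, `count_mid`, `no_comb`, `isFlat`, `exists_inR`, and `TPH.StmtMultiAll`, `TPH.StmtEvSum` of
`Pool/Agent/TPH/St7.lean`.  `Zr V (u g) (s g) (q g) t` is `Tr.zer V t (u g) (s g) (q g)`.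
-/

set_option autoImplicit false

namespace KPH

open TPH

/-- **StmtDet.** Two facets with positively proportional `u` which touch the same two layers are equal.
PROOF. `u g' = κ • u g`.  Put `δ = s g' - κ * s g`, `ε = q g' - κ * q g`.  For a vertex `x` of `g` in the layer
`t`: `ip x.1 (u g) = q g - s g * t`, so `val (u g') (s g') x ≤ q g'` (`Data.nn`) says `δ * t ≤ ε`.  For a vertex
`y` of `g'` in the layer `t`: `κ * ip y.1 (u g) = q g' - s g' * t` and `val (u g) (s g) y ≤ q g` give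
`ε ≤ δ * t`.  So `δ * t = ε`, in the same way `δ * t' = ε`, so `δ = 0` (`t ≠ t'`), `ε = 0`.  Then the vertices
of `g` are vertices of `g'`, and `Data.inj` gives `g = g'`. -/
def StmtDet : Prop := ∀ (ι : Type) (V : Finset (E × ℝ)) (G : Finset ι) (u : ι → E) (s q : ι → ℝ),
  Tr.Data V G u s q → ∀ g ∈ G, ∀ g' ∈ G, ∀ (t t' κ : ℝ), t ≠ t' → 0 < κ → u g' = κ • u g →
  (Zr V (u g) (s g) (q g) t).Nonempty → (Zr V (u g) (s g) (q g) t').Nonempty →
  (Zr V (u g') (s g') (q g') t).Nonempty → (Zr V (u g') (s g') (q g') t').Nonempty → g' = g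

/-- **StmtTieD.** A facet which touches three layers gives a tie, the maximisers are the vertices of the
facet, `u g ≠ 0`.
PROOF. `α = wt t₁ t₂ t₃`, `β = wt t₃ t₂ t₁` are positive with sum 1 and `α t₁ + β t₃ = t₂` (`Btw.wt_*`).
`Mx` sets: `Tr.Mx_img`, `Tr.card_Mx`; their elements have the values `2 α (q - s t₁)`, `2 β (q - s t₃)`
(`Tr.ip_of_mem`), and `ip v.1 (u g) = q - s t₂`; so `ip a + ip b = 2 ip v.1` for `a ∈ Mx (AA ..)`,
`b ∈ Mx (BB ..)` (these sets are not empty), `inRc_of_mem`, and `¬ InR` because of this equality.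
`u g = 0` would give `s g * t₁ = q g = s g * t₂`, so `s g = 0`, contradiction to `Data.nz`. -/
def StmtTieD : Prop := ∀ (ι : Type) (V : Finset (E × ℝ)) (G : Finset ι) (u : ι → E) (s q : ι → ℝ),
  Tr.Data V G u s q → ∀ g ∈ G, ∀ (t₁ t₂ t₃ : ℝ) (v : E × ℝ), Btw t₁ t₂ t₃ →
  v ∈ Zr V (u g) (s g) (q g) t₂ → (Zr V (u g) (s g) (q g) t₁).Nonempty →
  (Zr V (u g) (s g) (q g) t₃).Nonempty →
  u g ≠ 0 ∧ Tie (AA V t₁ t₂ t₃) (BB V t₁ t₂ t₃) v.1 (u g) ∧
  (Zr V (u g) (s g) (q g) t₂ = {v} → Mx (CC V t₂) (u g) = {v.1}) ∧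
  (Mx (AA V t₁ t₂ t₃) (u g)).card = (Zr V (u g) (s g) (q g) t₁).card ∧
  (Mx (BB V t₁ t₂ t₃) (u g)).card = (Zr V (u g) (s g) (q g) t₃).card

/-- **StmtRayD.** An exposing functional of a vertex is in all the cones `R_c`.
PROOF. Let `(r, s₀)` be an exposing functional of `v` (`hexp`).  `Mx (CC V t₂) r = {v.1}`: see the proof of
`Tr.convPos_img`.  `InR`: the proof of `Tr.exists_inR` (the vector `r` there does not depend on `t₁`, `t₃`);
for `x` in the layer `t₁` and `y` in the layer `t₃`: `val r s₀ x < val r s₀ v`, `val r s₀ y < val r s₀ v`, take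
the combination with the weights `α`, `β` of `Btw.wt_*`. -/
def StmtRayD : Prop := ∀ (V : Finset (E × ℝ)) (v : E × ℝ) (r : E) (s₀ : ℝ), v ∈ V →
  (∀ v' ∈ V, v' ≠ v → Tr.val r s₀ v' < Tr.val r s₀ v) →
  Mx (CC V v.2) r = {v.1} ∧
  ∀ t₁ t₃, Btw t₁ v.2 t₃ → InR (AA V t₁ v.2 t₃) (BB V t₁ v.2 t₃) v.1 r

/-- **StmtTypeI.** Facets with two vertices in the layer `tA`, the only vertex `v` in the layer `tc`, and
one vertex in each of two layers `tD`, `tB` on the other side of `tc`.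
PROOF. `hMulti` with `N = 2`, the pairs `(AA V tA tc tD, BB V tA tc tD)`, `(AA V tA tc tB, BB V tA tc tB)`
(`![_, _]`), `C = CC V tc`, `c = v.1`, `r` an exposing functional of `v` (`Data.exp`, `hRay`), and
`W = S.image u`.  `u` is injective on `S` by `hDet` (with `κ = 1`; two common layers `tA`, `tc`), and `hDet`
gives the condition on `κ • w`.  `ConvPos`: `Tr.convPos_img`.  Ties, `Mx C w = {c}`, `w ≠ 0`: `hTie`.
Condition on triples: for some of the two pairs the set `Mx B` is not constant on the three; otherwise, by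
`Tr.mem_Mx_img`, the vertex `d` of the first facet in the layer `tD` and its vertex `b` in the layer `tB` are
vertices of all three facets, `v` too, and these are three different vertices (different heights), a
contradiction to `Data.two` for the set of the three facets (`card = 3`).  The `A` part of the condition
holds because `Mx A` has two elements.  Last condition: two different elements of `Mx (AA ..)` common to the
three are images of two different vertices `x, x'` of the layer `tA` common to the three facets; with `v`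
this contradicts `Data.two`.  Finally `S.card = (S.image u).card`. -/
def StmtTypeI : Prop := ∀ (ι : Type) (V : Finset (E × ℝ)) (G : Finset ι) (u : ι → E) (s q : ι → ℝ),
  Tr.Data V G u s q → ∀ (tA tc tD tB : ℝ) (v : E × ℝ) (S : Finset ι), Btw tA tc tD → Btw tA tc tB →
  tD ≠ tB → v ∈ V → S ⊆ G →
  (∀ g ∈ S, (Zr V (u g) (s g) (q g) tA).card = 2 ∧ Zr V (u g) (s g) (q g) tc = {v} ∧
    (Zr V (u g) (s g) (q g) tD).card = 1 ∧ (Zr V (u g) (s g) (q g) tB).card = 1) →
  S.card ≤ 12 * (evd V tA tc tD v + evd V tA tc tB v) + 6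

/-- **StmtTypeII.** Facets with the only vertex `v` in the layer `tc`, and one vertex in each of two layers
`t₁`, `t₂` on one side and of two layers `t₄`, `t₅` on the other side.
PROOF. As for `StmtTypeI`, with `N = 4` and the pairs `(i,j)`, `i ∈ {t₁,t₂}`, `j ∈ {t₄,t₅}`.  Condition on
triples of different facets: suppose that for each of the four pairs `Mx A` is constant on the three or
`Mx B` is constant on the three.  If the vertex in the layer `t₁` is not constant, then those of `t₄` and of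
`t₅` are; if the vertex in `t₂` is not constant, the same.  So either the vertices in `t₁` and `t₂` are
constant, or those in `t₄` and `t₅` are, and together with `v` this contradicts `Data.two`.  (`Mx A` for
`(t₁,t₄)` and for `(t₁,t₅)` are both in bijection with `Zr .. t₁`, `Tr.mem_Mx_img`, `Tr.Mx_img`.)  Last
condition: `Mx (A j) w` has one element. -/
def StmtTypeII : Prop := ∀ (ι : Type) (V : Finset (E × ℝ)) (G : Finset ι) (u : ι → E) (s q : ι → ℝ),
  Tr.Data V G u s q → ∀ (t₁ t₂ tc t₄ t₅ : ℝ) (v : E × ℝ) (S : Finset ι),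
  Btw t₁ tc t₄ → Btw t₁ tc t₅ → Btw t₂ tc t₄ → Btw t₂ tc t₅ → t₁ ≠ t₂ → t₄ ≠ t₅ → v ∈ V → S ⊆ G →
  (∀ g ∈ S, (Zr V (u g) (s g) (q g) t₁).card = 1 ∧ (Zr V (u g) (s g) (q g) t₂).card = 1 ∧
    Zr V (u g) (s g) (q g) tc = {v} ∧
    (Zr V (u g) (s g) (q g) t₄).card = 1 ∧ (Zr V (u g) (s g) (q g) t₅).card = 1) →
  S.card ≤ 12 * (evd V t₁ tc t₄ v + evd V t₁ tc t₅ v + evd V t₂ tc t₄ v + evd V t₂ tc t₅ v) + 6

/-- **StmtSumI.** Sum over the vertex of the layer `tc`.
PROOF. Split `S` by the vertex `v` with `Zr .. tc = {v}` (`Finset.card_eq_sum_card_fiberwise` with a chosen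
element of `Zr .. tc`, or `Finset.card_le_card` for a `biUnion` over `v ∈ lay V tc`), `hTypeI` for each
fibre, and sum over `v ∈ lay V tc`. -/
def StmtSumI : Prop := ∀ (ι : Type) (V : Finset (E × ℝ)) (G : Finset ι) (u : ι → E) (s q : ι → ℝ),
  Tr.Data V G u s q → ∀ (tA tc tD tB : ℝ) (S : Finset ι), Btw tA tc tD → Btw tA tc tB →
  tD ≠ tB → S ⊆ G →
  (∀ g ∈ S, (Zr V (u g) (s g) (q g) tA).card = 2 ∧ (Zr V (u g) (s g) (q g) tc).card = 1 ∧
    (Zr V (u g) (s g) (q g) tD).card = 1 ∧ (Zr V (u g) (s g) (q g) tB).card = 1) →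
  S.card ≤ 12 * (Wd V tA tc tD + Wd V tA tc tB) + 6 * (Tr.lay V tc).card

/-- **StmtSumII.** The same for type II. -/
def StmtSumII : Prop := ∀ (ι : Type) (V : Finset (E × ℝ)) (G : Finset ι) (u : ι → E) (s q : ι → ℝ),
  Tr.Data V G u s q → ∀ (t₁ t₂ tc t₄ t₅ : ℝ) (S : Finset ι),
  Btw t₁ tc t₄ → Btw t₁ tc t₅ → Btw t₂ tc t₄ → Btw t₂ tc t₅ → t₁ ≠ t₂ → t₄ ≠ t₅ → S ⊆ G →
  (∀ g ∈ S, (Zr V (u g) (s g) (q g) t₁).card = 1 ∧ (Zr V (u g) (s g) (q g) t₂).card = 1 ∧
    (Zr V (u g) (s g) (q g) tc).card = 1 ∧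
    (Zr V (u g) (s g) (q g) t₄).card = 1 ∧ (Zr V (u g) (s g) (q g) t₅).card = 1) →
  S.card ≤ 12 * (Wd V t₁ tc t₄ + Wd V t₁ tc t₅ + Wd V t₂ tc t₄ + Wd V t₂ tc t₅) +
    6 * (Tr.lay V tc).card

/-- **StmtWd.** The bound for the total number of event classes.
PROOF. `hEvSum` for `AA V t₁ t₂ t₃`, `BB ..`, `CC ..`: `ConvPos` by `Tr.convPos_img`, nonempty cones by
`hRay` (every element of `CC V t₂` is `v.1` for a `v ∈ lay V t₂`), the sum over `c ∈ CC V t₂` is the sum over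
`v ∈ lay V t₂` (`Finset.sum_image`, `Tr.injOn`), cardinalities by `Tr.card_img`. -/
def StmtWd : Prop := ∃ K : ℕ, ∀ (V : Finset (E × ℝ)) (t₁ t₂ t₃ : ℝ), Btw t₁ t₂ t₃ →
  (∀ v ∈ V, ∃ (u : E) (s : ℝ), ∀ v' ∈ V, v' ≠ v → Tr.val u s v' < Tr.val u s v) →
  (Wd V t₁ t₂ t₃) ^ 2 ≤ K * ((Tr.lay V t₁).card + (Tr.lay V t₂).card + (Tr.lay V t₃).card) ^ 3

/-- **StmtFlatD.** Facets with two, one, two vertices in three layers which determine them are counted by
flats.
PROOF. As in `Tr.isFlat` and `Tr.count_flat` (file `TrAb.lean`), with `NDg` instead of `Data.span` and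
`StmtDet`-like arguments instead of `Tr.inj_three`: the map `g ↦ (Mx A (u g), c, Mx B (u g))` goes to `flats`
(last clause of `IsFlat`: given `v` orthogonal to both edges with the tie equation, choose `s'`, `q'` as in
`Tr.isFlat`; then `val v s' x = q'` for the vertices in the three layers, and `NDg` applies).  It is
injective: if `g`, `g'` have the same image then, as in the proof of `Tr.isFlat`, `u g'` (with `s g'`,
`q g'`) satisfies the hypothesis of `NDg` for `g` (the vertices of `g` in the three layers are vertices of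
`g'`, `Tr.mem_Mx_img`), so `u g' = κ • u g`; the values at a vertex of the layer `t₁` and at a vertex of the
layer `t₃` give `s g' = κ * s g`, `q g' = κ * q g`; so all vertices of `g` are vertices of `g'`, and
`Data.inj` gives `g = g'`. -/
def StmtFlatD : Prop := ∀ (ι : Type) (V : Finset (E × ℝ)) (G : Finset ι) (u : ι → E) (s q : ι → ℝ),
  Tr.Data V G u s q → ∀ (t₁ t₂ t₃ : ℝ) (S : Finset ι), Btw t₁ t₂ t₃ → S ⊆ G →
  (∀ g ∈ S, (Zr V (u g) (s g) (q g) t₁).card = 2 ∧ (Zr V (u g) (s g) (q g) t₂).card = 1 ∧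
    (Zr V (u g) (s g) (q g) t₃).card = 2 ∧ NDg V (u g) (s g) (q g) t₁ t₂ t₃) →
  S.card ≤ (flats (AA V t₁ t₂ t₃) (BB V t₁ t₂ t₃) (CC V t₂)).card

/-- **StmtNDg.** If the two extreme touched layers contain two vertices of the facet each, and all others
at most one, then some middle layer gives a nondegenerate flat.
PROOF. There is a vertex of `g` not in the layers `t₁`, `t₃` (`Data.five`), so there is at least one middle
touched layer.  Suppose that `NDg .. t₁ t₂ t₃` fails for every touched middle layer `t₂`.  Let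
`{x,x'} = Zr .. t₁`, `{y,y'} = Zr .. t₃`, `d = x.1 - x'.1 ≠ 0`, `d' = y.1 - y'.1 ≠ 0`.  The failure for one
`t₂` gives `v₀` (not a multiple of `u g`), `s₀`, `q₀` with `val v₀ s₀ = q₀` on the three sets.  `u g ≠ 0` (it
touches two layers, `Data.nz`), and `v₀`, `u g` are independent (`cr (u g) v₀ ≠ 0`, `par_of_cr`) and
orthogonal to `d`.  For every other touched middle layer `t₂'` take `v₁` in the same way; `v₁` is orthogonal
to `d`, so `v₀ = α • u g + β • v₁` (`comb_of_perp`, `u g` and `v₁` are independent).  The functional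
`val v₀ (α s g + β s₁) - (α q g + β q₁)` vanishes on `Zr t₁`, `Zr t₂'`, `Zr t₃`; comparing with
`val v₀ s₀ - q₀` on one vertex of the layer `t₁` and one of the layer `t₃` (`t₁ ≠ t₃`) gives
`s₀ = α s g + β s₁`, `q₀ = α q g + β q₁`.  So `val v₀ s₀ = q₀` on the vertices of `g` in all layers, that is
on all vertices of `g`, and `Data.span` gives `v₀ = k • u g`, a contradiction. -/
def StmtNDg : Prop := ∀ (ι : Type) (V : Finset (E × ℝ)) (G : Finset ι) (u : ι → E) (s q : ι → ℝ),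
  Tr.Data V G u s q → ∀ g ∈ G, ∀ (t₁ t₃ : ℝ), t₁ < t₃ → (Zr V (u g) (s g) (q g) t₁).card = 2 →
  (Zr V (u g) (s g) (q g) t₃).card = 2 →
  (∀ t, (Zr V (u g) (s g) (q g) t).Nonempty → t = t₁ ∨ t = t₃ ∨
    (t₁ < t ∧ t < t₃ ∧ (Zr V (u g) (s g) (q g) t).card = 1)) →
  ∃ t₂, Btw t₁ t₂ t₃ ∧ (Zr V (u g) (s g) (q g) t₂).card = 1 ∧
    NDg V (u g) (s g) (q g) t₁ t₂ t₃

/-- **StmtMidD.** Facets with exactly two vertices in a middle touched layer.
PROOF. We may assume `t₁ < t₂ < t₃` or the reverse.  If `3 ≤ |lay V t₂|`: `Tr.count_mid` (with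
`TPH.Closed.edge_lin`; for the reverse order exchange the names of `t₁`, `t₃`): at most `24 |lay V t₂|`.
If `|lay V t₂| ≤ 2` and `S` is not empty then `lay V t₂ = {x,y}` is the set of the two vertices for all
`g ∈ S`.  Map `g ∈ S` to some vertex `z ∈ Zr .. t₁`; every fibre has at most two elements by `Data.two` for
`x, y, z`.  So `|S| ≤ 2 |lay V t₁|` (`Finset.card_le_mul_card_image_of_maps_to`). -/
def StmtMidD : Prop := ∀ (ι : Type) (V : Finset (E × ℝ)) (G : Finset ι) (u : ι → E) (s q : ι → ℝ),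
  Tr.Data V G u s q → ∀ (t₁ t₂ t₃ : ℝ) (S : Finset ι), Btw t₁ t₂ t₃ → S ⊆ G →
  (∀ g ∈ S, (Zr V (u g) (s g) (q g) t₂).card = 2 ∧ (Zr V (u g) (s g) (q g) t₁).Nonempty ∧
    (Zr V (u g) (s g) (q g) t₃).Nonempty) →
  S.card ≤ 24 * (Tr.lay V t₂).card + 2 * (Tr.lay V t₁).card

/-- **StmtZeroD.** Facets parallel to the layers.
PROOF. As in `Tr.count_zero`: `g ↦ q g / s g` is injective on these facets and takes values in `T`. -/
def StmtZeroD : Prop := ∀ (ι : Type) (V : Finset (E × ℝ)) (G : Finset ι) (u : ι → E) (s q : ι → ℝ),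
  Tr.Data V G u s q → ∀ (T : Finset ℝ) (S : Finset ι), (∀ v ∈ V, v.2 ∈ T) → S ⊆ G →
  (∀ g ∈ S, u g = 0) → S.card ≤ T.card

/-- **StmtClass.** The types of facets.
PROOF. Let `z t = (Zr .. t).card`, and `τ` the finite set of the `t ∈ T` with `0 < z t`.  `∑_{t ∈ τ} z t ≥ 5`
(`Data.five`; the set `Z` there is the disjoint union of its parts in the layers).  If `z t ≥ 3` for some `t`:
(a).  Otherwise all `z t ≤ 2`, so `τ` has at least three elements.  If `z t₂ = 2` for some `t₂ ∈ τ` which is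
neither the minimum nor the maximum of `τ`: (b) with `t₁ = min τ`, `t₃ = max τ`.  Otherwise `z = 1` in the
middle.  Let `t₁ = min τ`, `t₃ = max τ`.  If `z t₁ = z t₃ = 2`: (c).  If `z t₁ = 2`, `z t₃ = 1`: then
`|τ| ≥ 4`; take the four smallest elements `tA < tc < tD < tB`: (d).  If `z t₁ = 1`, `z t₃ = 2`: the four
largest elements in decreasing order: (d).  If all are 1: `|τ| ≥ 5`, take the five smallest elements
`t₁ < t₂ < tc < t₄ < t₅`: (e).  (For a finite set of at least `m` reals there are `m` elements in increasing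
order, for example by `Finset.orderEmbOfFin` or by removing the minimum repeatedly.) -/
def StmtClass : Prop := ∀ (ι : Type) (V : Finset (E × ℝ)) (G : Finset ι) (u : ι → E) (s q : ι → ℝ),
  Tr.Data V G u s q → ∀ (T : Finset ℝ), (∀ v ∈ V, v.2 ∈ T) → ∀ g ∈ G,
  (∃ t ∈ T, 3 ≤ (Zr V (u g) (s g) (q g) t).card) ∨
  (∃ t₁ ∈ T, ∃ t₂ ∈ T, ∃ t₃ ∈ T, Btw t₁ t₂ t₃ ∧ (Zr V (u g) (s g) (q g) t₂).card = 2 ∧
    (Zr V (u g) (s g) (q g) t₁).Nonempty ∧ (Zr V (u g) (s g) (q g) t₃).Nonempty) ∨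
  (∃ t₁ ∈ T, ∃ t₃ ∈ T, t₁ < t₃ ∧ (Zr V (u g) (s g) (q g) t₁).card = 2 ∧
    (Zr V (u g) (s g) (q g) t₃).card = 2 ∧
    (∀ t, (Zr V (u g) (s g) (q g) t).Nonempty → t = t₁ ∨ t = t₃ ∨
      (t₁ < t ∧ t < t₃ ∧ (Zr V (u g) (s g) (q g) t).card = 1))) ∨
  (∃ tA ∈ T, ∃ tc ∈ T, ∃ tD ∈ T, ∃ tB ∈ T, Btw tA tc tD ∧ Btw tA tc tB ∧ tD ≠ tB ∧
    (Zr V (u g) (s g) (q g) tA).card = 2 ∧ (Zr V (u g) (s g) (q g) tc).card = 1 ∧
    (Zr V (u g) (s g) (q g) tD).card = 1 ∧ (Zr V (u g) (s g) (q g) tB).card = 1) ∨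
  (∃ t₁ ∈ T, ∃ t₂ ∈ T, ∃ tc ∈ T, ∃ t₄ ∈ T, ∃ t₅ ∈ T, Btw t₁ tc t₄ ∧ Btw t₁ tc t₅ ∧ Btw t₂ tc t₄ ∧
    Btw t₂ tc t₅ ∧ t₁ ≠ t₂ ∧ t₄ ≠ t₅ ∧
    (Zr V (u g) (s g) (q g) t₁).card = 1 ∧ (Zr V (u g) (s g) (q g) t₂).card = 1 ∧
    (Zr V (u g) (s g) (q g) tc).card = 1 ∧
    (Zr V (u g) (s g) (q g) t₄).card = 1 ∧ (Zr V (u g) (s g) (q g) t₅).card = 1)

/-- **StmtTotalD.** The bound for facet data.
PROOF. `n = |V|`, `n_t = |lay V t|`, `∑_{t ∈ T} n_t = n`, `k = |T|`.  `G` is covered by the facets with `u = 0`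
(at most `k`, `hZero`), and the classes of `hClass`: (a) for each `t` at most `4 n_t` (`Tr.count_three`), in
total `4 n`; (b) for each `(t₁,t₂,t₃) ∈ T³` at most `24 n_{t₂} + 2 n_{t₁}`, in total `26 k² n`; (c) by `hND`
and `hFlat` for each `(t₁,t₂,t₃)` the number of flats, whose square is at most `K m³`, `m = n_{t₁} + n_{t₂} +
n_{t₃}` (`TPH.Closed.flats_bound`); so it is at most `√K m √n`, and the sum is `≤ 3 √K k² n^(3/2)`; (d) for
each `(tA,tc,tD,tB)` `hSumI` and `hWd` (`Wd ≤ √K m √n`): sum `≤ 12 * 2 * 3 √K k³ n^(3/2) + 6 k³ n`; (e) in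
the same way `≤ 12 * 4 * 3 √K k⁴ n^(3/2) + 6 k⁴ n`. -/
def StmtTotalD : Prop := ∃ K : ℝ, 0 < K ∧ ∀ (ι : Type) (V : Finset (E × ℝ)) (G : Finset ι) (u : ι → E)
  (s q : ι → ℝ), Tr.Data V G u s q → ∀ T : Finset ℝ, (∀ v ∈ V, v.2 ∈ T) →
  (G.card : ℝ) ≤ K * (T.card : ℝ) ^ 4 * (V.card : ℝ) ^ (3 / 2 : ℝ)

end KPH
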